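import Pool.Agent.Helper82.CI.Basic

/-!
# Hamilton decompositions of finite Cayley graphs: the definition
-/

namespace Pool.Agent.Helper4.Sel

open Finset Pool.Agent.Helper82.Part

/-- decomposition of the Cayley graph of `B` into `|B|` Hamilton cycles -/
def HamDec (G : Type*) [AddCommGroup G] (B : Set G) : Prop :=
  ∃ Z : B → SimpleGraph G, (∀ b, (Z b).Connected ∧ ∀ v, ((Z b).neighborSet v).encard = 2) ∧
    (∀ b, Z b ≤ SimpleGraph.circulantGraph B) ∧
    ∀ x y, (SimpleGraph.circulantGraph B).Adj x y → ∃! b, (Z b).Adj x y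

/-- (B): chain independent generating sets give Hamilton decompositions -/
def BLemma : Prop :=
  ∀ (G : Type) [AddCommGroup G] [Finite G] [DecidableEq G] (B : Finset G),
    CI (fun x : G => AddSubgroup.zmultiples x) ⊥ B → (∀ s ∈ B, -s ∉ B) →
    AddSubgroup.closure (B : Set G) = ⊤ → B.Nonempty → HamDec G (B : Set G)

end Pool.Agent.Helper4.Sel
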