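import Pool.Agent.Helper4.Sel.Final
import Pool.Agent.Helper4.Sel.HamDec

/-!
# Selection of cut edges: the form with blocks
-/

namespace Pool.Agent.Helper4.Sel

open SimpleGraph Finset Pool.Agent.Helper39.HD

variable {T : Type*} [AddCommGroup T]

/-- transport to the ambient group -/
theorem HamDec.ambient [Finite T] {W : AddSubgroup T} {B : Set T} (hBW : B ⊆ W)
    (h : HamDec W (Subtype.val ⁻¹' B)) : ∃ Z : B → SimpleGraph T,
      (∀ c, ∀ x ∈ W, dg (Z c) x = 2) ∧ (∀ c x y, (Z c).Adj x y → x ∈ W) ∧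
      (∀ c, ∀ x ∈ W, ∀ y ∈ W, (Z c).Reachable x y) ∧ (∀ c x y, (Z c).Adj x y → stp B x y) ∧
      ∀ x ∈ W, ∀ y ∈ W, x ≠ y → stp B x y → ∃! c, (Z c).Adj x y := by
  obtain ⟨Z, h1, h2, h3⟩ := h
  let emb : W ↪ T := Function.Embedding.subtype _
  let cl : B → (Subtype.val ⁻¹' B : Set W) := fun c => ⟨⟨c.1, hBW c.2⟩, c.2⟩
  have hmap : ∀ (H : SimpleGraph W) (x y : T), (H.map emb).Adj x y ↔
      ∃ (hx : x ∈ W) (hy : y ∈ W), H.Adj ⟨x, hx⟩ ⟨y, hy⟩ := by
    intro H x y
    rw [SimpleGraph.map_adj]
    constructor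
    · rintro ⟨a, b, hab, rfl, rfl⟩
      exact ⟨a.2, b.2, hab⟩
    · rintro ⟨hx, hy, hab⟩
      exact ⟨_, _, hab, rfl, rfl⟩
  refine ⟨fun c => (Z (cl c)).map emb, ?_, ?_, ?_, ?_, ?_⟩
  · intro c x hx
    have e : ((Z (cl c)).map emb).neighborSet x =
        Subtype.val '' ((Z (cl c)).neighborSet ⟨x, hx⟩) := by
      ext y
      rw [SimpleGraph.mem_neighborSet, hmap, Set.mem_image]
      constructor
      · rintro ⟨_, hy, hab⟩
        exact ⟨⟨y, hy⟩, hab, rfl⟩
      · rintro ⟨b, hb, rfl⟩
        exact ⟨hx, b.2, hb⟩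
    unfold dg
    rw [e, Set.ncard_image_of_injective _ Subtype.val_injective]
    have := (h1 (cl c)).2 ⟨x, hx⟩
    rw [← (Set.toFinite ((Z (cl c)).neighborSet ⟨x, hx⟩)).cast_ncard_eq] at this
    exact_mod_cast this
  · intro c x y hxy
    exact ((hmap _ _ _).1 hxy).1
  · intro c x hx y hy
    have h4 := (h1 (cl c)).1.preconnected ⟨x, hx⟩ ⟨y, hy⟩
    let f : Z (cl c) →g (Z (cl c)).map emb :=
      { toFun := fun a => (a : T)
        map_rel' := fun {a b} hab => (hmap _ _ _).2 ⟨a.2, b.2, hab⟩ }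
    exact h4.map f
  · intro c x y hxy
    obtain ⟨hx, hy, hab⟩ := (hmap _ _ _).1 hxy
    have h4 := h2 _ hab
    rw [SimpleGraph.circulantGraph_adj] at h4
    exact h4.2.symm
  · intro x hx y hy hne hst
    obtain ⟨b, hb1, hb2⟩ := h3 ⟨x, hx⟩ ⟨y, hy⟩ (by
      rw [SimpleGraph.circulantGraph_adj]
      exact ⟨fun h => hne (congrArg Subtype.val h), hst.symm⟩)
    refine ⟨⟨b.1.1, b.2⟩, (hmap _ _ _).2 ⟨hx, hy, hb1⟩, ?_⟩
    intro c hc
    obtain ⟨_, _, hab⟩ := (hmap _ _ _).1 hc
    have := hb2 _ hab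
    exact Subtype.ext (by rw [← this])

/-- **Selection theorem.** -/
theorem connForests_of_blocks [Finite T] {P : Set T} (hP : ∀ s ∈ P, -s ∉ P)
    (hgen : AddSubgroup.closure P = ⊤) {K : AddSubgroup T} {m : ℕ} {B : Fin m → Set T}
    (hPB : ∀ x, x ∈ P ↔ ∃ j, x ∈ B j) (hdis : ∀ x i j, x ∈ B i → x ∈ B j → i = j)
    (hK : ∀ j, K ≤ AddSubgroup.closure (B j))
    (hnest : ∀ i j, i ≤ j → AddSubgroup.closure (B i) ≤ AddSubgroup.closure (B j))
    (hcost : ∀ j, (B j).ncard * Nat.card K ≤
      (B j ∩ K).ncard * Nat.card (AddSubgroup.closure (B j)))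
    (hk : 2 * (P ∩ K).ncard + 1 ≤ Nat.card K)
    (hham : ∀ j, HamDec (AddSubgroup.closure (B j)) (Subtype.val ⁻¹' (B j))) :
    ConnForests (SimpleGraph.circulantGraph P) (P.ncard + 1) := by
  classical
  have := Fintype.ofFinite T
  have h0P : (0 : T) ∉ P := fun h => hP 0 h (by simpa using h)
  choose bl hbl using fun c : P => (hPB c.1).1 c.2
  have hBP : ∀ j, B j ⊆ P := fun j x hx => (hPB x).2 ⟨j, hx⟩
  have hbl' : ∀ (c : P) j, c.1 ∈ B j → bl c = j := fun c j h => hdis _ _ _ (hbl c) h
  choose Z hZ1 hZ2 hZ3 hZ4 hZ5 using fun j => (hham j).ambient AddSubgroup.subset_closure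
  let W : P → AddSubgroup T := fun c => AddSubgroup.closure (B (bl c))
  let Z' : P → SimpleGraph T := fun c => Z (bl c) ⟨c.1, hbl c⟩
  have hstpB : ∀ (i j : Fin m) (x y : T), stp (B i) x y → stp (B j) x y → i = j := by
    rintro i j x y (h1 | h1) (h2 | h2)
    · exact hdis _ _ _ h1 h2
    · refine absurd (hBP j h2) ?_
      rw [← neg_sub]
      exact hP _ (hBP i h1)
    · refine absurd (hBP j h2) ?_
      rw [← neg_sub]
      exact hP _ (hBP i h1)
    · exact hdis _ _ _ h1 h2
  have hZeq : ∀ (j : Fin m) (c : P) (hc : c.1 ∈ B j), Z' c = Z j ⟨c.1, hc⟩ := by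
    intro j c hc
    have := hbl' c j hc
    subst this
    rfl
  refine connForests_aux (ι := P) (K := K) (W := W) (Z := Z') (μ := (P ∩ K).ncard) hP hgen ?_
    (fun c => hK _) ?_ (fun c => hZ1 _ _) (fun c => hZ2 _ _) (fun c => hZ3 _ _) ?_ ?_ ?_ hk le_rfl ?_
  · intro c
    refine le_antisymm ((AddSubgroup.closure_le _).2 Set.inter_subset_right) ?_
    exact AddSubgroup.closure_mono fun x hx => ⟨hBP _ hx, AddSubgroup.subset_closure hx⟩
  · intro c c'
    rcases le_total (bl c) (bl c') with h | h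
    · exact Or.inl (hnest _ _ h)
    · exact Or.inr (hnest _ _ h)
  · intro c x y hxy
    rcases hZ4 _ _ _ _ hxy with h | h
    · exact Or.inl (hBP _ h)
    · exact Or.inr (hBP _ h)
  · intro s hs
    obtain ⟨j, hj⟩ : ∃ j, s ∈ B j ∨ -s ∈ B j := by
      rcases hs with h | h
      · obtain ⟨j, hj⟩ := (hPB _).1 h
        exact ⟨j, Or.inl hj⟩
      · obtain ⟨j, hj⟩ := (hPB _).1 h
        exact ⟨j, Or.inr hj⟩
    have hsW : s ∈ AddSubgroup.closure (B j) := by
      rcases hj with h | h
      · exact AddSubgroup.subset_closure h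
      · have := (AddSubgroup.closure (B j)).neg_mem (AddSubgroup.subset_closure h)
        rwa [neg_neg] at this
    have hstp : ∀ x, stp (B j) x (x + s) := by
      intro x
      rcases hj with h | h
      · exact Or.inl (by rw [add_sub_cancel_left]; exact h)
      · refine Or.inr ?_
        have : x - (x + s) = -s := by abel
        rw [this]
        exact h
    have hs0 : s ≠ 0 := by
      rintro rfl
      rcases hs with h | h
      · exact h0P h
      · exact h0P (by simpa using h)
    have hblock : ∀ (c : P) x, (Z' c).Adj x (x + s) → bl c = j := by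
      intro c x hc
      exact hstpB _ _ _ _ (hZ4 _ _ _ _ hc) (hstp x)
    refine ⟨AddSubgroup.closure (B j), hsW, ?_, ?_, ?_⟩
    · intro x hx
      obtain ⟨c, hc, _⟩ := hZ5 j x hx (x + s) ((AddSubgroup.closure (B j)).add_mem hx hsW)
        (by simpa using hs0) (hstp x)
      have hcP : c.1 ∈ P := hBP j c.2
      refine ⟨⟨c.1, hcP⟩, ?_, ?_⟩
      · show AddSubgroup.closure (B (bl ⟨c.1, hcP⟩)) = _
        rw [hbl' ⟨c.1, hcP⟩ j c.2]
      · rw [hZeq j ⟨c.1, hcP⟩ c.2]
        exact hc
    · intro c x hc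
      show AddSubgroup.closure (B (bl c)) = _
      rw [hblock c x hc]
    · intro c c' x hc hc'
      have e1 := hblock c x hc
      have e2 := hblock c' x hc'
      have m1 : c.1 ∈ B j := e1 ▸ hbl c
      have m2 : c'.1 ∈ B j := e2 ▸ hbl c'
      rw [hZeq j c m1] at hc
      rw [hZeq j c' m2] at hc'
      have hx : x ∈ AddSubgroup.closure (B j) := hZ2 j _ _ _ hc
      obtain ⟨d, _, hd⟩ := hZ5 j x hx (x + s) ((AddSubgroup.closure (B j)).add_mem hx hsW)
        (by simpa using hs0) (hstp x)
      have h1 := (hd _ hc).trans (hd _ hc').symm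
      exact Subtype.ext (congrArg (fun z : B j => z.1) h1)
  · -- the cost
    have hfib : ∀ j, (univ.filter fun c : P => bl c = j).card = (B j).ncard := by
      intro j
      rw [← Set.ncard_coe_finset]
      refine Set.ncard_congr (fun c _ => c.1) ?_ ?_ ?_
      · intro c hc
        simp only [coe_filter, mem_univ, true_and, Set.mem_ofPred_eq] at hc
        exact hc ▸ hbl c
      · intro c c' _ _ h
        exact Subtype.ext h
      · intro x hx
        refine ⟨⟨x, hBP j hx⟩, ?_, rfl⟩
        simp only [coe_filter, mem_univ, true_and, Set.mem_ofPred_eq]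
        exact hbl' _ j hx
    have h1 : ∑ c : P, (W c).index =
        ∑ j, (B j).ncard * (AddSubgroup.closure (B j)).index := by
      rw [← Finset.sum_fiberwise (s := univ) (g := bl) (f := fun c : P => (W c).index)]
      refine Finset.sum_congr rfl fun j _ => ?_
      rw [Finset.sum_congr rfl (g := fun _ => (AddSubgroup.closure (B j)).index), sum_const,
        hfib, smul_eq_mul]
      intro c hc
      simp only [mem_filter, mem_univ, true_and] at hc
      show (AddSubgroup.closure (B (bl c))).index = _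
      rw [hc]
    have h2 : (P ∩ K).ncard = ∑ j, (B j ∩ K).ncard := by
      have e2 : (P ∩ K).ncard = (univ.filter fun x => x ∈ P ∧ x ∈ K).card := by
        rw [← Set.ncard_coe_finset]
        congr 1
        ext x
        simp
      have e3 : ∀ j, (B j ∩ K).ncard = (univ.filter fun x => x ∈ B j ∧ x ∈ K).card := by
        intro j
        rw [← Set.ncard_coe_finset]
        congr 1
        ext x
        simp
      rw [e2, Finset.sum_congr rfl fun j _ => e3 j, ← Finset.card_biUnion]
      · congr 1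
        ext x
        simp only [mem_filter, mem_univ, true_and, mem_biUnion]
        rw [hPB]
        constructor
        · rintro ⟨⟨j, h1⟩, h2⟩
          exact ⟨j, h1, h2⟩
        · rintro ⟨j, h1, h2⟩
          exact ⟨⟨j, h1⟩, h2⟩
      · intro i _ j _ hij
        show Disjoint _ _
        rw [Finset.disjoint_left]
        intro x hx hx'
        simp only [mem_filter, mem_univ, true_and] at hx hx'
        exact hij (hdis x i j hx.1 hx'.1)
    rw [h1, h2, Finset.sum_mul]
    refine Finset.sum_le_sum fun j _ => ?_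
    have h3 := hcost j
    have i1 := (AddSubgroup.closure (B j)).index_mul_card
    have i2 := K.index_mul_card
    have hT : 0 < Nat.card T := Nat.card_pos
    refine Nat.le_of_mul_le_mul_right ?_ hT
    calc (B j).ncard * (AddSubgroup.closure (B j)).index * Nat.card T
        = ((B j).ncard * Nat.card K) * ((AddSubgroup.closure (B j)).index * K.index) := by
          rw [← i2]; ring
      _ ≤ ((B j ∩ K).ncard * Nat.card (AddSubgroup.closure (B j))) *
          ((AddSubgroup.closure (B j)).index * K.index) := Nat.mul_le_mul_right _ h3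
      _ = (B j ∩ K).ncard * K.index * Nat.card T := by
          rw [← i1]; ring
  · rw [← Nat.card_coe_set_eq, Nat.card_eq_fintype_card]

end Pool.Agent.Helper4.Sel
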