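import Pool.Agent.Helper4.Sel.Lift

/-!
# Selection of cut edges: the counting argument
-/

namespace Pool.Agent.Helper4.Sel

open SimpleGraph Finset

open Classical in
theorem card_filter_adj {V : Type*} [Fintype V] (G : SimpleGraph V) (u : V) :
    (univ.filter fun v => G.Adj u v).card = dg G u := by
  unfold dg
  rw [← Set.ncard_coe_finset]
  congr 1
  ext v
  simp

open Classical in
theorem card_le_of_nb {V : Type*} [Fintype V] {G : SimpleGraph V} (A B : Finset V)
    (hA : ∀ u ∈ A, 2 ≤ dg G u) (hB : ∀ v ∈ B, dg G v ≤ 2)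
    (h : ∀ u ∈ A, ∀ v, G.Adj u v → v ∈ B) : A.card ≤ B.card := by
  have h1 := Finset.card_mul_le_card_mul (s := A) (t := B) (m := 2) (n := 2)
    (fun u v => G.Adj u v) (fun u hu => ?_) (fun v hv => ?_)
  · omega
  · refine (hA u hu).trans ?_
    rw [← card_filter_adj]
    refine card_le_card fun v hv => ?_
    rw [mem_filter] at hv
    exact mem_bipartiteAbove _ |>.2 ⟨h u hu v hv.2, hv.2⟩
  · refine le_trans ?_ (hB v hv)
    rw [← card_filter_adj]
    refine card_le_card fun u hu => ?_
    rw [mem_bipartiteBelow] at hu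
    exact mem_filter.2 ⟨mem_univ _, hu.2.symm⟩

variable {T : Type*} [AddCommGroup T] [Fintype T]

open Classical in
/-- number of vertices of degree two in a coset -/
noncomputable def c2 (K : AddSubgroup T) (R : SimpleGraph T) (x : T) : ℕ :=
  (univ.filter fun y => y - x ∈ K ∧ dg R y = 2).card

omit [Fintype T] in
theorem mem_coset {K : AddSubgroup T} {x y z : T} (h : y - x ∈ K) : z - y ∈ K ↔ z - x ∈ K := by
  have e : z - x = (z - y) + (y - x) := by abel
  constructor
  · intro h'
    rw [e]
    exact K.add_mem h' h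
  · intro h'
    have e' : z - y = (z - x) - (y - x) := by abel
    rw [e']
    exact K.sub_mem h' h

theorem c2_congr {K : AddSubgroup T} (R : SimpleGraph T) {x y : T} (h : y - x ∈ K) :
    c2 K R y = c2 K R x := by
  unfold c2
  congr 1
  ext z
  simp only [mem_filter, mem_univ, true_and, mem_coset h]

open Classical in
theorem card_coset (K : AddSubgroup T) (x : T) :
    (univ.filter fun y => y - x ∈ K).card = Nat.card K := by
  rw [← Set.ncard_coe_finset, ← Nat.card_coe_set_eq]
  refine Nat.card_congr
    { toFun := fun y => ⟨y.1 - x, by simpa using y.2⟩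
      invFun := fun k => ⟨x + k.1, by simp⟩
      left_inv := fun y => Subtype.ext (by simp)
      right_inv := fun k => Subtype.ext (by simp) }

/-- the inequality -/
theorem arith (k μ M N S a0 a2 x cap : ℕ) (hN : N = k * M) (h1 : a0 + 2 * S = N + a2)
    (h2 : a0 ≤ a2 + M + x) (hcap : cap + k = 4 * μ + 1) (hcap1 : 1 ≤ cap)
    (h3 : x * cap ≤ a2 * (k - cap)) (h4 : N + 4 * a2 ≤ 4 * S) (hS : S + 1 ≤ μ * M)
    (hk : 2 * μ + 2 ≤ k) : False := by
  obtain ⟨y, hy⟩ : ∃ y, k = 2 * μ + y := ⟨k - 2 * μ, by omega⟩
  obtain ⟨y', rfl⟩ : ∃ y', y = y' + 2 := ⟨y - 2, by omega⟩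
  obtain ⟨c, rfl⟩ : ∃ c, cap = c + 1 := ⟨cap - 1, by omega⟩
  have hkc : k - (c + 1) = 2 * y' + 3 := by omega
  rw [hkc] at h3
  have e1 : 2 * μ = c + y' + 2 := by omega
  have e2 : k = c + 2 * y' + 4 := by omega
  -- cast to integers
  zify at *
  obtain ⟨e, he⟩ : ∃ e : ℤ, (S : ℤ) + 1 + e = μ * M := ⟨μ * M - (S + 1), by ring⟩
  have he0 : 0 ≤ e := by
    have := hS
    rw [← he] at this
    linarith
  have hM : (0 : ℤ) ≤ M := by positivity
  have hy0 : (0 : ℤ) ≤ y' := by positivity
  have hc0 : (0 : ℤ) ≤ c := by positivity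
  have s1 : 2 * (S : ℤ) = (c + y' + 2) * M - 2 - 2 * e := by
    have : 2 * ((S : ℤ) + 1 + e) = (2 * μ) * M := by rw [he]; ring
    rw [e1] at this
    linarith
  have s2 : (N : ℤ) = (c + 2 * y' + 4) * M := by rw [hN, e2]
  have s3 : (y' + 1) * (M : ℤ) + 2 + 2 * e ≤ x := by
    have : (N : ℤ) - 2 * S - M ≤ x := by linarith
    rw [s1, s2] at this
    linarith
  have s4 : 4 * (a2 : ℤ) ≤ c * M - 4 - 4 * e := by
    have : 4 * (a2 : ℤ) ≤ 2 * (2 * S) - N := by linarith
    rw [s1, s2] at this
    linarith
  have s5 : ((y' + 1) * (M : ℤ) + 2 + 2 * e) * (c + 1) ≤ x * (c + 1) :=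
    mul_le_mul_of_nonneg_right s3 (by positivity)
  have s6 : 4 * (a2 : ℤ) * (2 * y' + 3) ≤ (c * M - 4 - 4 * e) * (2 * y' + 3) :=
    mul_le_mul_of_nonneg_right s4 (by positivity)
  have s7 : 4 * (((y' + 1) * (M : ℤ) + 2 + 2 * e) * (c + 1)) ≤
      (c * M - 4 - 4 * e) * (2 * y' + 3) := by linarith
  have p1 : 0 ≤ (y' : ℤ) * M * c := by positivity
  have p2 : 0 ≤ (M : ℤ) * c := by positivity
  have p3 : 0 ≤ (y' : ℤ) * M := by positivity
  have p4 : 0 ≤ e * c := by positivity
  have p5 : 0 ≤ e * y' := by positivity
  nlinarith [p1, p2, p3, p4, p5, he0, hM, hy0, hc0, s7]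

open Classical in
/-- **existence of a good edge** -/
theorem exists_edge {P : Set T} {K : AddSubgroup T} {gK : T → T} (hK : IsFold P K gK)
    (G R : SimpleGraph T) (μ S : ℕ) (hG : ∀ x, dg G x = 2) (hR : ∀ x, dg R x ≤ 2)
    (hS : ∑ x, dg R x = 2 * S)
    (hinv : (∀ x, dg R x ≤ 1) ∨
      (Nat.card T + 4 * (univ.filter fun x => dg R x = 2).card ≤ 4 * S ∧
        ∀ x, c2 K R x + Nat.card K ≤ 4 * μ + 1))
    (hrep : ∀ x, gK x = 0 → dg R x ≤ 1)
    (hSM : S + 1 ≤ μ * {x | gK x = 0}.ncard) (hk : 2 * μ + 1 ≤ Nat.card K) :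
    ∃ u v, G.Adj u v ∧ dg R u = 0 ∧ (dg R v = 0 ∨ (dg R v = 1 ∧ gK v ≠ 0 ∧
      Nat.card T + 4 * (univ.filter fun x => dg R x = 2).card ≤ 4 * S ∧
      c2 K R v + 1 + Nat.card K ≤ 4 * μ + 1)) := by
  by_contra hcon
  push Not at hcon
  set k := Nat.card K with hkdef
  set M := {x | gK x = 0}.ncard with hMdef
  have hN : Nat.card T = k * M := by
    rw [mul_comm]
    exact (fibre_card hK K.zero_mem).symm
  set A0 := univ.filter fun x => dg R x = 0 with hA0
  set A1 := univ.filter fun x => dg R x = 1 with hA1
  set A2 := univ.filter fun x => dg R x = 2 with hA2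
  have hsum : A0.card + A1.card + A2.card = Nat.card T := by
    rw [Nat.card_eq_fintype_card, ← Finset.card_univ]
    have h1 : (univ : Finset T) = (A0 ∪ A1) ∪ A2 := by
      ext x
      simp only [mem_univ, mem_union, hA0, hA1, hA2, mem_filter, true_and, true_iff]
      have := hR x
      omega
    rw [h1, card_union_of_disjoint, card_union_of_disjoint]
    · rw [Finset.disjoint_left]
      intro x hx hx'
      simp only [hA0, hA1, mem_filter, mem_univ, true_and] at hx hx'
      omega
    · rw [Finset.disjoint_left]
      intro x hx hx'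
      simp only [hA0, hA1, hA2, mem_filter, mem_union, mem_univ, true_and] at hx hx'
      omega
  have hdeg : A1.card + 2 * A2.card = 2 * S := by
    rw [← hS]
    have h1 : ∀ x, dg R x = (if dg R x = 1 then 1 else 0) + 2 * (if dg R x = 2 then 1 else 0) := by
      intro x
      have := hR x
      split_ifs <;> omega
    rw [Finset.sum_congr rfl fun x _ => h1 x, Finset.sum_add_distrib, ← Finset.mul_sum,
      Finset.sum_boole, Finset.sum_boole]
    simp [hA1, hA2]
  have e1 : A0.card + 2 * S = Nat.card T + A2.card := by omega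
  -- no edge between two vertices of degree zero
  have h00 : 2 * A0.card ≤ Nat.card T := by
    have h1 := card_le_of_nb (G := G) A0 (univ \ A0) (fun u _ => (hG u).ge) (fun v _ => (hG v).le)
      (fun u hu v huv => by
        rw [mem_sdiff]
        refine ⟨mem_univ _, fun hv => ?_⟩
        simp only [hA0, mem_filter, mem_univ, true_and] at hu hv
        exact (hcon u v huv hu).1 hv)
    rw [card_sdiff_of_subset (subset_univ _), Finset.card_univ, ← Nat.card_eq_fintype_card] at h1
    omega
  have hb : Nat.card T + 4 * A2.card ≤ 4 * S := by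
    rcases hinv with h | h
    · have : A2 = ∅ := by
        refine eq_empty_of_forall_notMem fun x hx => ?_
        simp only [hA2, mem_filter, mem_univ, true_and] at hx
        have := h x
        omega
      rw [this] at e1 ⊢
      simp only [card_empty] at e1 ⊢
      omega
    · exact h.1
  have hc : ∀ x, c2 K R x + k ≤ 4 * μ + 1 := by
    rcases hinv with h | h
    · intro x
      have h1 : c2 K R x = 0 := by
        unfold c2
        rw [card_eq_zero]
        refine eq_empty_of_forall_notMem fun y hy => ?_
        simp only [mem_filter, mem_univ, true_and] at hy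
        have := h y
        omega
      rw [h1, zero_add]
      by_contra hlt
      have h2 : (4 * μ + 1) * M ≤ k * M := Nat.mul_le_mul_right _ (by omega)
      have h3 : k * M + 4 ≤ 4 * (μ * M) := by omega
      have h4 : (4 * μ + 1) * M = 4 * (μ * M) + M := by ring
      omega
    · exact h.2
  have hMpos : 0 < M := by
    by_contra h0
    have : M = 0 := by omega
    rw [this, mul_zero] at hSM
    omega
  have hkcap : k ≤ 4 * μ := by
    by_contra hlt
    have h2 : (4 * μ + 1) * M ≤ k * M := Nat.mul_le_mul_right _ (by omega)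
    have h3 : k * M + 4 ≤ 4 * (μ * M) := by omega
    have h4 : (4 * μ + 1) * M = 4 * (μ * M) + M := by ring
    omega
  set X := univ.filter fun x => dg R x = 1 ∧ gK x ≠ 0 ∧ c2 K R x + k = 4 * μ + 1 with hX
  have h01 : A0.card ≤ A2.card + M + X.card := by
    set Rp := univ.filter fun x => gK x = 0 with hRp
    have hRp1 : Rp.card = M := by
      rw [hMdef, ← Set.ncard_coe_finset]
      congr 1
      ext x
      simp [hRp]
    refine (card_le_of_nb (G := G) A0 ((A2 ∪ Rp) ∪ X) (fun u _ => (hG u).ge)
      (fun v _ => (hG v).le) (fun u hu v huv => ?_)).trans ?_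
    · simp only [hA0, hA2, hRp, hX, mem_union, mem_filter, mem_univ, true_and] at hu ⊢
      obtain ⟨h1, h2⟩ := hcon u v huv hu
      by_cases hv2 : dg R v = 2
      · exact Or.inl (Or.inl hv2)
      have hv1 : dg R v = 1 := by
        have := hR v
        omega
      by_cases hvr : gK v = 0
      · exact Or.inl (Or.inr hvr)
      refine Or.inr ⟨hv1, hvr, ?_⟩
      have h3 := h2 hv1 hvr hb
      have h4 := hc v
      omega
    · refine (card_union_le _ _).trans ?_
      have := card_union_le A2 Rp
      omega
  have hXc : X.card * (4 * μ + 1 - k) ≤ A2.card * (k - (4 * μ + 1 - k)) := by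
    refine Finset.card_mul_le_card_mul (fun v w => w - v ∈ K) (fun v hv => ?_) (fun w hw => ?_)
    · simp only [hX, mem_filter, mem_univ, true_and] at hv
      have h1 : 4 * μ + 1 - k = c2 K R v := by omega
      rw [h1]
      unfold c2
      refine card_le_card fun w hw => ?_
      rw [mem_bipartiteAbove]
      simp only [mem_filter, mem_univ, true_and] at hw
      exact ⟨by simpa [hA2] using hw.2, hw.1⟩
    · rcases (bipartiteBelow (fun v w => w - v ∈ K) X w).eq_empty_or_nonempty with h0 | ⟨v0, hv0⟩
      · rw [h0, card_empty]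
        exact Nat.zero_le _
      · rw [mem_bipartiteBelow] at hv0
        have hv1 := hv0.1
        simp only [hX, mem_filter, mem_univ, true_and] at hv1
        have h1 := c2_congr R hv0.2
        have h2 : (univ.filter fun y => y - w ∈ K ∧ dg R y = 2).card +
            (univ.filter fun y => y - w ∈ K ∧ dg R y ≠ 2).card = k := by
          have h3 := Finset.card_filter_add_card_filter_not (s := univ.filter fun y => y - w ∈ K)
            (fun y => dg R y = 2)
          rw [card_coset, Finset.filter_filter, Finset.filter_filter] at h3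
          exact h3
        have h4 : (bipartiteBelow (fun v w => w - v ∈ K) X w).card ≤
            (univ.filter fun y => y - w ∈ K ∧ dg R y ≠ 2).card := by
          refine card_le_card fun v hv => ?_
          rw [mem_bipartiteBelow] at hv
          simp only [hX, mem_filter, mem_univ, true_and] at hv ⊢
          refine ⟨?_, by omega⟩
          rw [← neg_sub]
          exact K.neg_mem hv.2
        have h5 : c2 K R w = (univ.filter fun y => y - w ∈ K ∧ dg R y = 2).card := rfl
        omega
  rcases Nat.lt_or_ge (2 * μ + 1) k with hk2 | hk2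
  · exact arith k μ M (Nat.card T) S A0.card A2.card X.card (4 * μ + 1 - k) hN e1 h01
      (by omega) (by omega) hXc hb hSM hk2
  · have hkeq : k = 2 * μ + 1 := by omega
    have hX0 : X = ∅ := by
      refine eq_empty_of_forall_notMem fun v hv => ?_
      simp only [hX, mem_filter, mem_univ, true_and] at hv
      obtain ⟨hv1, hv2, hv3⟩ := hv
      -- the representative
      have hgv := hK.mem v
      have hgr : gK (v - gK v) = 0 := by
        rw [sub_eq_add_neg, hK.add v _ (K.neg_mem hgv), add_neg_cancel]
      have hr := hrep _ hgr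
      have hne : v - gK v ≠ v := fun h => hv2 (by simpa using h)
      have hsub : insert v (insert (v - gK v) (univ.filter fun y => y - v ∈ K ∧ dg R y = 2)) ⊆
          univ.filter fun y => y - v ∈ K := by
        intro y hy
        simp only [mem_insert, mem_filter, mem_univ, true_and] at hy ⊢
        rcases hy with rfl | rfl | hy
        · rw [sub_self]; exact K.zero_mem
        · have : v - gK v - v = -gK v := by abel
          rw [this]
          exact K.neg_mem hgv
        · exact hy.1
      have h3 := card_le_card hsub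
      rw [card_coset, card_insert_of_notMem, card_insert_of_notMem] at h3
      · have h5 : c2 K R v = (univ.filter fun y => y - v ∈ K ∧ dg R y = 2).card := rfl
        omega
      · simp only [mem_filter, mem_univ, true_and]
        intro h
        omega
      · simp only [mem_insert, mem_filter, mem_univ, true_and]
        rintro (h | h)
        · exact hne h.symm
        · omega
    rw [hX0, card_empty] at h01
    have h4 : Nat.card T = 2 * (μ * M) + M := by rw [hN, hkeq]; ring
    omega

end Pool.Agent.Helper4.Sel
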