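import Pool.Agent.Helper4.Sel.Select
import Pool.Agent.Helper39.HD2.Graph
import Pool.Agent.Helper82.CI.Greedy

/-!
# Selection of cut edges: connected linear forests
-/

namespace Pool.Agent.Helper4.Sel

open SimpleGraph Finset Pool.Agent.Helper39.HD

theorem encard_le_one_iff_dg {V : Type*} [Finite V] {R : SimpleGraph V} {x : V} :
    (R.neighborSet x).encard ≤ 1 ↔ dg R x ≤ 1 := by
  unfold dg
  rw [← (Set.toFinite (R.neighborSet x)).cast_ncard_eq]
  exact_mod_cast Iff.rfl

theorem encard_le_two_iff_dg {V : Type*} [Finite V] {R : SimpleGraph V} {x : V} :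
    (R.neighborSet x).encard ≤ 2 ↔ dg R x ≤ 2 := by
  unfold dg
  rw [← (Set.toFinite (R.neighborSet x)).cast_ncard_eq]
  exact_mod_cast Iff.rfl

/-- in a finite forest every vertex is connected to a vertex of degree at most one -/
theorem exists_port {V : Type*} [Finite V] {R : SimpleGraph V} (hR : R.IsAcyclic) (x : V) :
    ∃ y, R.Reachable x y ∧ dg R y ≤ 1 := by
  classical
  have := Fintype.ofFinite V
  let s := {n | ∃ (v : V) (p : R.Walk x v), p.IsPath ∧ p.length = n}
  have hs : s.Finite := Set.Finite.subset (Set.finite_le_nat (Fintype.card V))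
    fun n ⟨_, _, hp, hn⟩ ↦ hn ▸ hp.length_lt.le
  obtain ⟨_, ⟨⟨v, p, hp, rfl⟩, hn⟩⟩ := hs.exists_maximal ⟨0, ⟨x, Walk.nil, by simp⟩⟩
  refine ⟨v, ⟨p⟩, ?_⟩
  have key : R.neighborSet v ⊆ {p.penultimate} := by
    intro w hw
    rw [SimpleGraph.mem_neighborSet] at hw
    by_cases hws : w ∈ p.support
    · exact hR.eq_penultimate_of_adj_end hp hw hws
    · exfalso
      have h1 := hn ⟨w, p.concat hw, hp.concat hws hw, rfl⟩
      simp only [Walk.length_concat] at h1
      omega
  have := Set.ncard_le_ncard key (Set.toFinite _)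
  rwa [Set.ncard_singleton] at this

theorem rtg_of_reachable {V : Type*} {R : SimpleGraph V} {r : V → V → Prop}
    (h : ∀ a b, R.Adj a b → r a b) {x y : V} (hxy : R.Reachable x y) :
    Relation.ReflTransGen r x y := by
  obtain ⟨p⟩ := hxy
  induction p with
  | nil => exact Relation.ReflTransGen.refl
  | cons h1 _ ih => exact Relation.ReflTransGen.head (h _ _ h1) ih

variable {T : Type*} [AddCommGroup T]

theorem reachable_lift {P : Set T} {W : AddSubgroup T} {g : T → T} (hg : IsFold P W g)
    {Z : SimpleGraph T} (hZ : ∀ a b, Z.Adj a b → a ∈ W) {a b : T} (hab : Z.Reachable a b)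
    (x : T) (ha : g x = a) : (lift W g Z).Reachable x (x + (b - a)) := by
  obtain ⟨p⟩ := hab
  induction p generalizing x with
  | nil =>
    rw [sub_self, add_zero]
  | @cons a c b h1 _ ih =>
    have hca : c - a ∈ W := W.sub_mem (hZ _ _ h1.symm) (hZ _ _ h1)
    have hgc : g (x + (c - a)) = c := by
      rw [hg.add x _ hca, ha]
      abel
    have h2 := ih (x + (c - a)) hgc
    have e : x + (c - a) + (b - c) = x + (b - a) := by abel
    rw [e] at h2
    have h3 : (lift W g Z).Adj x (x + (c - a)) := by
      rw [lift_adj, hgc, ha]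
      exact ⟨by rw [add_sub_cancel_left]; exact hca, h1⟩
    exact h3.reachable.trans h2

theorem stp_adj {P : Set T} (hP : ∀ s ∈ P, -s ∉ P) {a b : T} (h : stp P a b) :
    (SimpleGraph.circulantGraph P).Adj a b := by
  rw [SimpleGraph.circulantGraph_adj]
  refine ⟨?_, h.symm⟩
  rintro rfl
  have h0 : (0 : T) ∈ P := by
    rcases h with h | h <;> simpa using h
  exact hP 0 h0 (by simpa using h0)

theorem adj_stp {P : Set T} {a b : T} (h : (SimpleGraph.circulantGraph P).Adj a b) :
    stp P a b := by
  rw [SimpleGraph.circulantGraph_adj] at h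
  exact h.2.symm

/-- the main lemma: from Hamilton cycles on subgroups to connected linear forests -/
theorem connForests_aux [Finite T] {ι : Type*} [Fintype ι] {P : Set T} (hP : ∀ s ∈ P, -s ∉ P)
    (hgen : AddSubgroup.closure P = ⊤) {K : AddSubgroup T} {W : ι → AddSubgroup T}
    {Z : ι → SimpleGraph T} {μ : ℕ}
    (hPW : ∀ c, AddSubgroup.closure (P ∩ W c) = W c) (hKW : ∀ c, K ≤ W c)
    (hch : ∀ c c', W c ≤ W c' ∨ W c' ≤ W c)
    (hZ : ∀ c, ∀ x ∈ W c, dg (Z c) x = 2) (hZ' : ∀ c x y, (Z c).Adj x y → x ∈ W c)
    (hZ3 : ∀ c, ∀ x ∈ W c, ∀ y ∈ W c, (Z c).Reachable x y)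
    (hZ4 : ∀ c x y, (Z c).Adj x y → stp P x y)
    (hZ5 : ∀ s, (s ∈ P ∨ -s ∈ P) → ∃ W0 : AddSubgroup T, s ∈ W0 ∧
      (∀ x ∈ W0, ∃ c, W c = W0 ∧ (Z c).Adj x (x + s)) ∧
      (∀ c x, (Z c).Adj x (x + s) → W c = W0) ∧
      ∀ c c' x, (Z c).Adj x (x + s) → (Z c').Adj x (x + s) → c = c')
    (hcost : ∑ c, (W c).index ≤ μ * K.index) (hk : 2 * μ + 1 ≤ Nat.card K)
    (hμ : μ ≤ (P ∩ K).ncard) (hcard : Fintype.card ι = P.ncard) :
    ConnForests (SimpleGraph.circulantGraph P) (P.ncard + 1) := by
  classical
  have := Fintype.ofFinite T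
  set G := SimpleGraph.circulantGraph P with hG
  have h0P : (0 : T) ∉ P := fun h => hP 0 h (by simpa using h)
  -- the folding maps
  obtain ⟨g, hg1, hg2⟩ := exists_folds P _ (insert K (insert ⊤ (univ.image W))) rfl
    (by simp) (by
      intro A hA B hB
      simp only [mem_insert, mem_image, mem_univ, true_and] at hA hB
      rcases hA with rfl | rfl | ⟨c, rfl⟩
      · rcases hB with rfl | rfl | ⟨c', rfl⟩
        · exact Or.inl le_rfl
        · exact Or.inl le_top
        · exact Or.inl (hKW c')
      · exact Or.inr le_top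
      · rcases hB with rfl | rfl | ⟨c', rfl⟩
        · exact Or.inr (hKW c)
        · exact Or.inl le_top
        · exact hch c c') (by
      intro A hA hlt
      simp only [mem_insert, mem_image, mem_univ, true_and] at hA
      rcases hA with rfl | rfl | ⟨c, rfl⟩
      · exfalso
        obtain ⟨B, hB, hBA⟩ := hlt
        simp only [mem_insert, mem_image, mem_univ, true_and] at hB
        rcases hB with rfl | rfl | ⟨c', rfl⟩
        · exact lt_irrefl _ hBA
        · exact not_lt_of_ge le_top hBA
        · exact not_lt_of_ge (hKW c') hBA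
      · simpa using hgen
      · exact hPW c)
  have hK : IsFold P K (g K) := hg1 K (by simp)
  have hW : ∀ c, IsFold P (W c) (g (W c)) := fun c => hg1 (W c) (by simp)
  have hcompK : ∀ c x, g K (g (W c) x) = g K x := fun c x =>
    hg2 K (by simp) (W c) (by simp) (hKW c) x
  have hcomp : ∀ c c', W c ≤ W c' → ∀ x, g (W c) (g (W c') x) = g (W c) x :=
    fun c c' h x => hg2 (W c) (by simp) (W c') (by simp) h x
  obtain ⟨u, v, R, hst⟩ := select hK hW hKW hcompK hch hcomp hZ hZ' hcost hk
  have huv : ∀ c, (Z c).Adj (u c) (v c) := fun c => hst.adj c (mem_univ _)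
  have hRadj : ∀ x y, R.Adj x y ↔
      ∃ c, (lift (W c) (g (W c)) (edge (u c) (v c))).Adj x y := by
    intro x y
    rw [hst.eq]
    simp
  let F : ι → SimpleGraph T := fun c => lift (W c) (g (W c)) (Z c \ edge (u c) (v c))
  let L : ι → SimpleGraph T := fun c => lift (W c) (g (W c)) (Z c)
  have hsplit : ∀ c x y, (L c).Adj x y ↔
      ((F c).Adj x y ∨ (lift (W c) (g (W c)) (edge (u c) (v c))).Adj x y) := by
    intro c x y
    have hadj : ∀ a b, (edge (u c) (v c)).Adj a b → (Z c).Adj a b := by
      intro a b hab
      rw [SimpleGraph.edge_adj] at hab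
      rcases hab.1 with ⟨h1, h2⟩ | ⟨h1, h2⟩
      · rw [h1, h2]; exact huv c
      · rw [h1, h2]; exact (huv c).symm
    simp only [L, F, lift_adj, SimpleGraph.sdiff_adj]
    have := hadj (g (W c) x) (g (W c) y)
    tauto
  have hexcl : ∀ c x y, ¬ ((F c).Adj x y ∧ (lift (W c) (g (W c)) (edge (u c) (v c))).Adj x y) := by
    rintro c x y ⟨h1, h2⟩
    exact h1.2.2 h2.2
  have hLG : ∀ c x y, (L c).Adj x y → stp P x y := by
    intro c x y h
    have h1 := hZ4 c _ _ h.2
    have h2 := (hW c).sub h.1
    unfold stp at h1 ⊢
    have h3 : g (W c) x - g (W c) y = x - y := by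
      rw [← neg_sub, h2, neg_sub]
    rwa [h2, h3] at h1
  have hLuniq : ∀ x y, G.Adj x y → ∃! c, (L c).Adj x y := by
    intro x y hxy
    obtain ⟨W0, hs, h1, h2, h3⟩ := hZ5 (y - x) (by
      rw [neg_sub]
      exact adj_stp hxy)
    have hgy : ∀ c, W c = W0 → g (W c) y = g (W c) x + (y - x) := by
      intro c hc
      have := (hW c).sub (x := x) (y := y) (by rw [hc]; exact hs)
      rw [← this]
      abel
    by_cases hne : ∃ c, W c = W0
    · obtain ⟨c0, hc0⟩ := hne
      obtain ⟨c, hc, hcadj⟩ := h1 (g (W c0) x) (by rw [← hc0]; exact (hW c0).mem x)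
      have hcc : W c0 = W c := hc0.trans hc.symm
      rw [hcc] at hcadj
      refine ⟨c, ⟨by rw [hc]; exact hs, by rw [hgy c hc]; exact hcadj⟩, ?_⟩
      intro c' hc'
      have h4 : (Z c').Adj (g (W c') x) (g (W c') x + (y - x)) := by
        have h5 := (hW c').sub hc'.1
        have h6 : g (W c') y = g (W c') x + (y - x) := by rw [← h5]; abel
        rw [← h6]
        exact hc'.2
      have h7 := h2 _ _ h4
      rw [h7.trans hc.symm] at h4
      exact h3 _ _ _ h4 hcadj
    · exfalso
      obtain ⟨c, hc, _⟩ := h1 0 W0.zero_mem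
      exact hne ⟨c, hc⟩
  -- degrees
  have hLdeg : ∀ c x, dg (L c) x = 2 := by
    intro c x
    rw [dg_lift (hW c) x fun z hz => hZ' c _ _ hz.symm]
    exact hZ c _ ((hW c).mem x)
  have hFport : ∀ c x, g (W c) x = u c → dg (F c) x ≤ 1 := by
    intro c x hx
    have h1 := dg_del (Z := Z c) (x := g (W c) x) (huv c)
    rw [hx, if_pos (Or.inl rfl), hZ c _ (hZ' c _ _ (huv c))] at h1
    rw [dg_lift (hW c) (Z := Z c \ edge (u c) (v c)) x fun z hz => hZ' c _ _ hz.1.symm, hx]
    omega
  -- linear forests
  have hFlin : ∀ c, IsLinearForest (F c) := by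
    intro c
    refine Pool.Agent.Helper82.Part.isLinearForest_of_missing (Z := L c)
      (fun x => encard_le_two_iff_dg.2 (hLdeg c x).le)
      (fun x y h => (hsplit c x y).2 (Or.inl h)) fun x => ?_
    have hxW : g (W c) x ∈ W c := (hW c).mem x
    have huW : u c ∈ W c := hZ' c _ _ (huv c)
    have hvW : v c ∈ W c := hZ' c _ _ (huv c).symm
    have e1 : g (W c) (x + (u c - g (W c) x)) = u c := by
      rw [(hW c).add x _ ((W c).sub_mem huW hxW)]
      abel
    have e2 : g (W c) (x + (v c - g (W c) x)) = v c := by
      rw [(hW c).add x _ ((W c).sub_mem hvW hxW)]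
      abel
    have e3 : x + (v c - g (W c) x) - (x + (u c - g (W c) x)) ∈ W c := by
      have : x + (v c - g (W c) x) - (x + (u c - g (W c) x)) = v c - u c := by abel
      rw [this]
      exact (W c).sub_mem hvW huW
    refine ⟨x + (u c - g (W c) x), x + (v c - g (W c) x),
      reachable_lift (hW c) (fun a b h => hZ' c a b h) (hZ3 c _ hxW _ huW) x rfl, ?_, ?_⟩
    · exact ⟨e3, by rw [e1, e2]; exact huv c⟩
    · intro h
      have h2 := h.2.2
      rw [e1, e2] at h2
      exact h2 ((SimpleGraph.edge_adj _ _ _ _).2 ⟨Or.inl ⟨rfl, rfl⟩, (huv c).ne⟩)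
  have hRG : ∀ x y, R.Adj x y → stp P x y := by
    intro x y h
    obtain ⟨c, hc⟩ := (hRadj x y).1 h
    exact hLG c x y ((hsplit c x y).2 (Or.inr hc))
  -- the relation
  let rel : SimpleGraph T → T → T → Prop := fun H x y => H.Adj x y ∨
    (G.Adj x y ∧ (H.neighborSet x).encard ≤ 1 ∧ (H.neighborSet y).encard ≤ 1)
  have rel_symm : ∀ H x y, rel H x y → rel H y x := by
    rintro H x y (h | ⟨h1, h2, h3⟩)
    · exact Or.inl h.symm
    · exact Or.inr ⟨h1.symm, h3, h2⟩
  have rel_port : ∀ H x y, stp P x y → dg H x ≤ 1 → dg H y ≤ 1 → rel H x y := by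
    intro H x y h h1 h2
    exact Or.inr ⟨stp_adj hP h, encard_le_one_iff_dg.2 h1, encard_le_one_iff_dg.2 h2⟩
  have hFconn : ∀ c x y, Relation.ReflTransGen (rel (F c)) x y := by
    intro c
    have key : ∀ x, Relation.ReflTransGen (rel (F c)) x (u c) := by
      intro x
      have hxW : g (W c) x ∈ W c := (hW c).mem x
      have huW : u c ∈ W c := hZ' c _ _ (huv c)
      -- inside the coset
      have h1 : (Z c \ edge (u c) (v c)).Reachable (g (W c) x) (u c) := by
        have h2 : ∀ a b, (Z c).Reachable a b → (Z c \ edge (u c) (v c)).Reachable a b := by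
          rintro a b ⟨p⟩
          induction p with
          | nil => exact Reachable.refl _
          | @cons a d b h1 _ ih =>
            refine Reachable.trans ?_ ih
            by_cases h3 : (a = u c ∧ d = v c) ∨ (a = v c ∧ d = u c)
            · have h4 := reach_del (Z := Z c) (W := (W c : Set T)) (hZ c) (hZ' c) (huv c)
              rcases h3 with ⟨rfl, rfl⟩ | ⟨rfl, rfl⟩
              · exact h4
              · exact h4.symm
            · exact (del_adj.2 ⟨h1, h3⟩ : (Z c \ edge (u c) (v c)).Adj a d).reachable
        exact h2 _ _ (hZ3 c _ hxW _ huW)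
      have h2 := reachable_lift (hW c) (Z := Z c \ edge (u c) (v c))
        (fun a b h => hZ' c a b h.1) h1 x rfl
      set x' := x + (u c - g (W c) x) with hx'
      have e1 : g (W c) x' = u c := by
        rw [hx', (hW c).add x _ ((W c).sub_mem huW hxW)]
        abel
      refine (rtg_of_reachable (fun a b h => (Or.inl h : rel (F c) a b)) h2).trans ?_
      refine rtg_symm (rel_symm _) ?_
      have h3 := (hW c).conn x'
      rw [e1] at h3
      refine rtg_mono ?_ h3
      rintro a b ⟨hab, ha, hb⟩
      exact rel_port _ _ _ hab (hFport c a ha) (hFport c b hb)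
    intro x y
    exact (key x).trans (rtg_symm (rel_symm _) (key y))
  have hRconn : ∀ x y, Relation.ReflTransGen (rel R) x y := by
    have key : ∀ x, Relation.ReflTransGen (rel R) x 0 := by
      intro x
      rcases hst.inv with h1 | ⟨-, h1⟩
      · -- all vertices are ports
        obtain ⟨f, hf1, -, -, hf4⟩ := fold_step P ⊥ ⊤ bot_le (by simpa using hgen)
        have hf0 : f x = 0 := by simpa using hf1 x (by simp)
        refine rtg_symm (rel_symm _) (rtg_mono ?_ (hf4 x (by simp) hf0))
        rintro a b ⟨hab, -, -⟩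
        exact rel_port _ _ _ hab (h1 a) (h1 b)
      · obtain ⟨p, hp1, hp2⟩ := exists_port hst.acyc x
        refine (rtg_of_reachable (fun a b h => (Or.inl h : rel R a b)) hp1).trans ?_
        -- the representative of the coset of `p`
        set r := p - g K p with hr
        have hgp : g K p ∈ K := hK.mem p
        have hgr : g K r = 0 := by
          rw [hr, sub_eq_add_neg, hK.add p _ (K.neg_mem hgp), add_neg_cancel]
        have hr1 : dg R r ≤ 1 := hst.rep r hgr
        -- a common closed neighbour
        let D : Finset T := insert 0 ((univ.filter fun s => s ∈ P ∧ s ∈ K) ∪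
          (univ.filter fun s => -s ∈ P ∧ s ∈ K))
        have hPK : (univ.filter fun s => s ∈ P ∧ s ∈ K).card = (P ∩ K).ncard := by
          rw [← Set.ncard_coe_finset]
          congr 1
          ext s
          simp
        have hPK' : (univ.filter fun s => -s ∈ P ∧ s ∈ K).card = (P ∩ K).ncard := by
          rw [← hPK]
          refine Finset.card_bij (fun s _ => -s) ?_ ?_ ?_
          · intro s hs
            simp only [mem_filter, mem_univ, true_and] at hs ⊢
            exact ⟨hs.1, K.neg_mem hs.2⟩
          · intro s _ s' _ h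
            exact neg_injective h
          · intro s hs
            simp only [mem_filter, mem_univ, true_and] at hs
            exact ⟨-s, by simpa using hs, by simp⟩
        have hD : D.card = 2 * (P ∩ K).ncard + 1 := by
          rw [card_insert_of_notMem, card_union_of_disjoint, hPK, hPK']
          · ring
          · rw [Finset.disjoint_left]
            intro s hs hs'
            simp only [mem_filter, mem_univ, true_and] at hs hs'
            exact hP s hs.1 hs'.1
          · simp only [mem_union, mem_filter, mem_univ, true_and, neg_zero, not_or, not_and]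
            exact ⟨fun h => absurd h h0P, fun h => absurd h h0P⟩
        have hDK : ∀ d ∈ D, d ∈ K := by
          intro d hd
          simp only [D, mem_insert, mem_union, mem_filter, mem_univ, true_and] at hd
          rcases hd with rfl | h | h
          · exact K.zero_mem
          · exact h.2
          · exact h.2
        have hDs : ∀ d ∈ D, ∀ a, a + d = a ∨ stp P a (a + d) := by
          intro d hd a
          simp only [D, mem_insert, mem_union, mem_filter, mem_univ, true_and] at hd
          rcases hd with rfl | h | h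
          · exact Or.inl (add_zero a)
          · refine Or.inr (Or.inl ?_)
            rw [add_sub_cancel_left]
            exact h.1
          · refine Or.inr (Or.inr ?_)
            have : a - (a + d) = -d := by abel
            rw [this]
            exact h.1
        let Np := D.image fun d => p + d
        let Nr := D.image fun d => r + d
        have hNp : Np.card = D.card := card_image_of_injective _ (add_right_injective p)
        have hNr : Nr.card = D.card := card_image_of_injective _ (add_right_injective r)
        have hrp : r - p ∈ K := by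
          have : r - p = -(g K p) := by rw [hr]; abel
          rw [this]
          exact K.neg_mem hgp
        have hsubp : Np ∪ Nr ⊆ univ.filter fun y => y - p ∈ K := by
          intro y hy
          rw [mem_filter]
          refine ⟨mem_univ _, ?_⟩
          rcases mem_union.1 hy with hy | hy
          · obtain ⟨d, hd, rfl⟩ := mem_image.1 hy
            rw [add_sub_cancel_left]
            exact hDK d hd
          · obtain ⟨d, hd, rfl⟩ := mem_image.1 hy
            have : r + d - p = (r - p) + d := by abel
            rw [this]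
            exact K.add_mem hrp (hDK d hd)
        have hc1 := card_le_card hsubp
        rw [card_coset] at hc1
        have hc2 := card_union_add_card_inter Np Nr
        have hc3 := h1 p
        have hlt : c2 K R p < (Np ∩ Nr).card := by omega
        obtain ⟨w, hw1, hw2⟩ : ∃ w ∈ Np ∩ Nr, dg R w ≤ 1 := by
          by_contra hcon
          push Not at hcon
          refine absurd (card_le_card (s := Np ∩ Nr) (t := univ.filter fun y =>
            y - p ∈ K ∧ dg R y = 2) ?_) (not_le.2 hlt)
          intro w hw
          have h2 := hcon w hw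
          have h3 := hst.deg w
          have h4 := hsubp (mem_union_left _ (mem_inter.1 hw).1)
          simp only [mem_filter, mem_univ, true_and] at h4 ⊢
          exact ⟨h4, by omega⟩
        have hpw : Relation.ReflTransGen (rel R) p w := by
          obtain ⟨d, hd, rfl⟩ := mem_image.1 (mem_inter.1 hw1).1
          rcases hDs d hd p with h2 | h2
          · rw [h2]
          · exact Relation.ReflTransGen.single (rel_port _ _ _ h2 hp2 hw2)
        have hrw : Relation.ReflTransGen (rel R) r w := by
          obtain ⟨d, hd, hd'⟩ := mem_image.1 (mem_inter.1 hw1).2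
          rw [← hd'] at hw2 ⊢
          rcases hDs d hd r with h2 | h2
          · rw [h2]
          · exact Relation.ReflTransGen.single (rel_port _ _ _ h2 hr1 hw2)
        refine (hpw.trans (rtg_symm (rel_symm _) hrw)).trans (rtg_symm (rel_symm _) ?_)
        have h2 := hK.conn r
        rw [hgr] at h2
        refine rtg_mono ?_ h2
        rintro a b ⟨hab, ha, hb⟩
        exact rel_port _ _ _ hab (hst.rep a ha) (hst.rep b hb)
    intro x y
    exact (key x).trans (rtg_symm (rel_symm _) (key y))
  -- the family
  let Fo : Option ι → SimpleGraph T := fun o => o.elim R F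
  have hcardO : Fintype.card (Option ι) = P.ncard + 1 := by
    rw [Fintype.card_option, hcard]
  let e : Fin (P.ncard + 1) ≃ Option ι := (Fintype.equivFinOfCardEq hcardO).symm
  have A1 : ∀ o, IsLinearForest (Fo o) := by
    rintro (_ | c)
    · exact ⟨hst.acyc, fun x => encard_le_two_iff_dg.2 (hst.deg x)⟩
    · exact hFlin c
  have A2 : ∀ o, Fo o ≤ G := by
    rintro (_ | c) x y h
    · exact stp_adj hP (hRG x y h)
    · exact stp_adj hP (hLG c x y ((hsplit c x y).2 (Or.inl h)))
  have A3 : ∀ x y, G.Adj x y → ∃! o, (Fo o).Adj x y := by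
    intro x y hxy
    obtain ⟨c, hc1, hc2⟩ := hLuniq x y hxy
    rcases (hsplit c x y).1 hc1 with h | h
    · refine ⟨some c, h, ?_⟩
      rintro (_ | c') hc'
      · exfalso
        obtain ⟨c', hc''⟩ := (hRadj x y).1 hc'
        have := hc2 c' ((hsplit c' x y).2 (Or.inr hc''))
        subst this
        exact hexcl _ x y ⟨h, hc''⟩
      · have := hc2 c' ((hsplit c' x y).2 (Or.inl hc'))
        rw [this]
    · refine ⟨none, (hRadj x y).2 ⟨c, h⟩, ?_⟩
      rintro (_ | c') hc'
      · rfl
      · exfalso
        have := hc2 c' ((hsplit c' x y).2 (Or.inl hc'))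
        subst this
        exact hexcl _ x y ⟨hc', h⟩
  have A4 : ∀ o x y, Relation.ReflTransGen (rel (Fo o)) x y := by
    rintro (_ | c) x y
    · exact hRconn x y
    · exact hFconn c x y
  refine ⟨fun i => Fo (e i), fun i => A1 _, fun i => A2 _, fun x y hxy => ?_, fun i => A4 _⟩
  obtain ⟨o, ho1, ho2⟩ := A3 x y hxy
  refine ⟨e.symm o, by simpa using ho1, fun i hi => ?_⟩
  rw [← ho2 _ hi]
  simp

end Pool.Agent.Helper4.Sel
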