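import Mathlib

/-!
# Selection of cut edges: folding maps
-/

namespace Pool.Agent.Helper4.Sel

variable {T : Type*} [AddCommGroup T]

/-- a step along a label in `P` -/
def stp (P : Set T) (x y : T) : Prop := y - x ∈ P ∨ x - y ∈ P

theorem stp_symm {P : Set T} {x y : T} (h : stp P x y) : stp P y x := Or.symm h

theorem stp_add {P : Set T} {x y : T} (h : stp P x y) (t : T) : stp P (x + t) (y + t) := by
  unfold stp at *
  simpa using h

theorem rtg_mono {α : Type*} {r p : α → α → Prop} (h : ∀ a b, r a b → p a b) {a b : α}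
    (hab : Relation.ReflTransGen r a b) : Relation.ReflTransGen p a b := by
  induction hab with
  | refl => exact Relation.ReflTransGen.refl
  | tail _ h1 ih => exact ih.tail (h _ _ h1)

theorem rtg_map {α β : Type*} {r : α → α → Prop} {p : β → β → Prop} (f : α → β)
    (h : ∀ a b, r a b → p (f a) (f b)) {a b : α}
    (hab : Relation.ReflTransGen r a b) : Relation.ReflTransGen p (f a) (f b) := by
  induction hab with
  | refl => exact Relation.ReflTransGen.refl
  | tail _ h1 ih => exact ih.tail (h _ _ h1)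

/-- a `W`-equivariant retraction with `P`-connected fibres -/
structure IsFold (P : Set T) (W : AddSubgroup T) (g : T → T) : Prop where
  mem : ∀ x, g x ∈ W
  add : ∀ x, ∀ w ∈ W, g (x + w) = g x + w
  id : ∀ w ∈ W, g w = w
  conn : ∀ x, Relation.ReflTransGen (fun a b => stp P a b ∧ g a = g x ∧ g b = g x) (g x) x

theorem IsFold.idem {P : Set T} {W : AddSubgroup T} {g : T → T} (h : IsFold P W g) (x : T) :
    g (g x) = g x := h.id _ (h.mem x)

theorem IsFold.sub {P : Set T} {W : AddSubgroup T} {g : T → T} (h : IsFold P W g) {x y : T}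
    (hxy : y - x ∈ W) : g y - g x = y - x := by
  have := h.add x _ hxy
  rw [add_sub_cancel] at this
  rw [this]
  abel

/-- one step of the construction -/
theorem fold_step [Finite T] (P : Set T) (W W' : AddSubgroup T) (hWW' : W ≤ W')
    (hgen : AddSubgroup.closure (P ∩ W') = W') : ∃ f : T → T, (∀ x ∈ W', f x ∈ W) ∧
      (∀ x ∈ W', ∀ w ∈ W, f (x + w) = f x + w) ∧ (∀ w ∈ W, f w = w) ∧
      ∀ x ∈ W', f x = 0 → Relation.ReflTransGen
        (fun a b => stp P a b ∧ (a ∈ W' ∧ f a = 0) ∧ (b ∈ W' ∧ f b = 0)) 0 x := by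
  classical
  let S : Set (Set T) := {Ψ | 0 ∈ Ψ ∧ (∀ x ∈ Ψ, x ∈ W') ∧ (∀ a ∈ Ψ, ∀ b ∈ Ψ, a - b ∈ W → a = b) ∧
    ∀ x ∈ Ψ, Relation.ReflTransGen (fun a b => stp P a b ∧ a ∈ Ψ ∧ b ∈ Ψ) 0 x}
  have hS0 : ({0} : Set T) ∈ S := by
    refine ⟨rfl, ?_, ?_, ?_⟩
    · rintro x rfl
      exact W'.zero_mem
    · rintro a rfl b rfl _
      rfl
    · rintro x rfl
      exact Relation.ReflTransGen.refl
  obtain ⟨Ψ, hΨ, hmax⟩ : ∃ Ψ ∈ S, ∀ Ψ' ∈ S, Ψ'.ncard ≤ Ψ.ncard := by
    have hfin : S.Finite := Set.toFinite _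
    obtain ⟨Ψ, h1, h2⟩ := hfin.exists_maximalFor (fun Ψ : Set T => Ψ.ncard) S ⟨_, hS0⟩
    refine ⟨Ψ, h1, fun Ψ' h' => ?_⟩
    by_contra hlt
    have := h2 h' (not_le.1 hlt).le
    exact hlt this
  obtain ⟨h0, hW', huniq, hconn⟩ := hΨ
  let U : Set T := {x | x ∈ W' ∧ ∃ ψ ∈ Ψ, x - ψ ∈ W}
  have hstep : ∀ x ∈ U, ∀ y ∈ W', stp P x y → y ∈ U := by
    rintro x ⟨hx, ψ, hψ, hxψ⟩ y hy hst
    by_contra hyU
    have hz : ψ + (y - x) ∉ Ψ := by
      intro hz
      exact hyU ⟨hy, _, hz, by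
        have : y - (ψ + (y - x)) = x - ψ := by abel
        rw [this]; exact hxψ⟩
    have hst' : stp P ψ (ψ + (y - x)) := by
      have := stp_add hst (ψ - x)
      have e1 : x + (ψ - x) = ψ := by abel
      have e2 : y + (ψ - x) = ψ + (y - x) := by abel
      rwa [e1, e2] at this
    have hnew : insert (ψ + (y - x)) Ψ ∈ S := by
      refine ⟨Or.inr h0, ?_, ?_, ?_⟩
      · rintro z (rfl | hz')
        · exact W'.add_mem (hW' ψ hψ) (W'.sub_mem hy hx)
        · exact hW' z hz'
      · have key : ∀ b ∈ Ψ, ψ + (y - x) - b ∈ W → False := by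
          intro b hb hbW
          exact hyU ⟨hy, b, hb, by
            have : y - b = (ψ + (y - x) - b) + (x - ψ) := by abel
            rw [this]; exact W.add_mem hbW hxψ⟩
        rintro a (rfl | ha) b (rfl | hb) hab
        · rfl
        · exact (key b hb hab).elim
        · refine (key a ha ?_).elim
          rw [← neg_sub]
          exact W.neg_mem hab
        · exact huniq a ha b hb hab
      · have hmono : ∀ z, Relation.ReflTransGen (fun a b => stp P a b ∧ a ∈ Ψ ∧ b ∈ Ψ) 0 z →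
            Relation.ReflTransGen (fun a b => stp P a b ∧ a ∈ insert (ψ + (y - x)) Ψ ∧
              b ∈ insert (ψ + (y - x)) Ψ) 0 z :=
          fun z => rtg_mono fun a b h => ⟨h.1, Or.inr h.2.1, Or.inr h.2.2⟩
        rintro z (rfl | hz')
        · exact (hmono ψ (hconn ψ hψ)).tail ⟨hst', Or.inr hψ, Or.inl rfl⟩
        · exact hmono z (hconn z hz')
    have := hmax _ hnew
    rw [Set.ncard_insert_of_notMem hz (Set.toFinite _)] at this
    omega
  have hU : ∀ x ∈ W', x ∈ U := by
    have h0U : (0 : T) ∈ U := ⟨W'.zero_mem, 0, h0, by simp [W.zero_mem]⟩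
    have key : ∀ y ∈ AddSubgroup.closure (P ∩ W'),
        y ∈ W' ∧ ∀ x ∈ U, x + y ∈ U ∧ x - y ∈ U := by
      intro y hy
      induction hy using AddSubgroup.closure_induction with
      | mem s hs =>
        refine ⟨hs.2, fun x hx => ⟨?_, ?_⟩⟩
        · exact hstep x hx _ (W'.add_mem hx.1 hs.2) (Or.inl (by simpa using hs.1))
        · exact hstep x hx _ (W'.sub_mem hx.1 hs.2) (Or.inr (by simpa using hs.1))
      | zero => exact ⟨W'.zero_mem, fun x hx => by simpa using hx⟩
      | add a b _ _ iha ihb =>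
        refine ⟨W'.add_mem iha.1 ihb.1, fun x hx => ⟨?_, ?_⟩⟩
        · rw [← add_assoc]
          exact (ihb.2 _ (iha.2 x hx).1).1
        · rw [← sub_sub]
          exact (ihb.2 _ (iha.2 x hx).2).2
      | neg a _ ih =>
        refine ⟨W'.neg_mem ih.1, fun x hx => ⟨?_, ?_⟩⟩
        · rw [← sub_eq_add_neg]
          exact (ih.2 x hx).2
        · rw [sub_neg_eq_add]
          exact (ih.2 x hx).1
    intro x hx
    have := ((key x (by rw [hgen]; exact hx)).2 0 h0U).1
    rwa [zero_add] at this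
  choose! ψ hψ1 hψ2 using fun x (hx : x ∈ W') => (hU x hx).2
  have hψ3 : ∀ x ∈ W', ∀ a ∈ Ψ, x - a ∈ W → ψ x = a := by
    intro x hx a ha hxa
    refine huniq _ (hψ1 x hx) _ ha ?_
    have : ψ x - a = (x - a) - (x - ψ x) := by abel
    rw [this]
    exact W.sub_mem hxa (hψ2 x hx)
  refine ⟨fun x => x - ψ x, fun x hx => hψ2 x hx, ?_, ?_, ?_⟩
  · intro x hx w hw
    have : ψ (x + w) = ψ x := by
      refine hψ3 _ (W'.add_mem hx (hWW' hw)) _ (hψ1 x hx) ?_
      have : x + w - ψ x = (x - ψ x) + w := by abel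
      rw [this]
      exact W.add_mem (hψ2 x hx) hw
    show x + w - ψ (x + w) = x - ψ x + w
    rw [this]
    abel
  · intro w hw
    have : ψ w = 0 := hψ3 w (hWW' hw) 0 h0 (by rw [sub_zero]; exact hw)
    show w - ψ w = w
    rw [this, sub_zero]
  · have hfix : ∀ a ∈ Ψ, a - ψ a = 0 := by
      intro a ha
      rw [hψ3 a (hW' a ha) a ha (by rw [sub_self]; exact W.zero_mem), sub_self]
    intro x hx hx0
    have hxΨ : x ∈ Ψ := by
      have : x = ψ x := sub_eq_zero.1 hx0
      rw [this]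
      exact hψ1 x hx
    exact rtg_mono (fun a b h =>
      ⟨h.1, ⟨hW' a h.2.1, hfix a h.2.1⟩, ⟨hW' b h.2.2, hfix b h.2.2⟩⟩) (hconn x hxΨ)

theorem isFold_top (P : Set T) : IsFold P ⊤ (fun x => x) where
  mem _ := AddSubgroup.mem_top _
  add _ _ _ := rfl
  id _ _ := rfl
  conn _ := Relation.ReflTransGen.refl

theorem rtg_symm {α : Type*} {r : α → α → Prop} (h : ∀ a b, r a b → r b a) {a b : α}
    (hab : Relation.ReflTransGen r a b) : Relation.ReflTransGen r b a := by
  induction hab with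
  | refl => exact Relation.ReflTransGen.refl
  | tail _ h1 ih => exact Relation.ReflTransGen.head (h _ _ h1) ih

/-- compatible folding maps for a chain of subgroups -/
theorem exists_folds [Finite T] (P : Set T) : ∀ (n : ℕ) (Ch : Finset (AddSubgroup T)),
    Ch.card = n → ⊤ ∈ Ch → (∀ W ∈ Ch, ∀ W' ∈ Ch, W ≤ W' ∨ W' ≤ W) →
    (∀ W' ∈ Ch, (∃ W ∈ Ch, W < W') → AddSubgroup.closure (P ∩ W') = W') →
    ∃ g : AddSubgroup T → T → T, (∀ W ∈ Ch, IsFold P W (g W)) ∧
      ∀ W ∈ Ch, ∀ W' ∈ Ch, W ≤ W' → ∀ x, g W (g W' x) = g W x := by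
  classical
  intro n
  induction n with
  | zero =>
    intro Ch h0 h1
    rw [Finset.card_eq_zero] at h0
    subst h0
    exact absurd h1 (Finset.notMem_empty _)
  | succ n ih =>
    intro Ch hcard htop hch hgen
    -- the least element
    obtain ⟨W0, hW0, hmin⟩ : ∃ W0 ∈ Ch, ∀ W ∈ Ch, W0 ≤ W := by
      obtain ⟨W0, h1⟩ := Ch.exists_minimal ⟨_, htop⟩
      refine ⟨W0, h1.1, fun W hW => ?_⟩
      rcases hch W0 h1.1 W hW with h | h
      · exact h
      · exact h1.2 hW h
    by_cases htop0 : W0 = ⊤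
    · refine ⟨fun _ x => x, fun W hW => ?_, fun _ _ _ _ _ _ => rfl⟩
      have : W = ⊤ := top_le_iff.1 (htop0 ▸ hmin W hW)
      rw [this]
      exact isFold_top P
    have htop' : ⊤ ∈ Ch.erase W0 := Finset.mem_erase.2 ⟨fun h => htop0 h.symm, htop⟩
    obtain ⟨g, hg1, hg2⟩ := ih (Ch.erase W0) (by rw [Finset.card_erase_of_mem hW0, hcard]; rfl)
      htop' (fun W hW W' hW' => hch W (Finset.mem_of_mem_erase hW) W' (Finset.mem_of_mem_erase hW'))
      (fun W' hW' h => hgen W' (Finset.mem_of_mem_erase hW') (by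
        obtain ⟨W, h1, h2⟩ := h
        exact ⟨W, Finset.mem_of_mem_erase h1, h2⟩))
    obtain ⟨W1, hW1, hmin1⟩ : ∃ W1 ∈ Ch.erase W0, ∀ W ∈ Ch.erase W0, W1 ≤ W := by
      obtain ⟨W1, h1⟩ := (Ch.erase W0).exists_minimal ⟨_, htop'⟩
      refine ⟨W1, h1.1, fun W hW => ?_⟩
      rcases hch W1 (Finset.mem_of_mem_erase h1.1) W (Finset.mem_of_mem_erase hW) with h | h
      · exact h
      · exact h1.2 hW h
    have hW1' := Finset.mem_of_mem_erase hW1
    have h01 : W0 ≤ W1 := hmin W1 hW1'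
    have hlt : W0 < W1 := lt_of_le_of_ne h01 (Finset.ne_of_mem_erase hW1).symm
    obtain ⟨f, hf1, hf2, hf3, hf4⟩ := fold_step P W0 W1 h01 (hgen W1 hW1' ⟨W0, hW0, hlt⟩)
    have F1 := hg1 W1 hW1
    refine ⟨fun W => if W = W0 then (fun x => f (g W1 x)) else g W, ?_, ?_⟩
    · intro W hW
      by_cases h : W = W0
      · subst h
        simp only [if_true]
        have hadd : ∀ x, ∀ w ∈ W, f (g W1 (x + w)) = f (g W1 x) + w := fun x w hw => by
          rw [F1.add x w (h01 hw), hf2 _ (F1.mem x) w hw]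
        refine ⟨fun x => hf1 _ (F1.mem x), hadd, fun w hw => ?_, ?_⟩
        · rw [F1.id w (h01 hw), hf3 w hw]
        · intro x
          -- from `h = f (g W1 x)` to `g W1 x` inside `W1`
          have hh : f (g W1 x) ∈ W := hf1 _ (F1.mem x)
          have hx1 : g W1 x - f (g W1 x) ∈ W1 := W1.sub_mem (F1.mem x) (h01 hh)
          have hx2 : f (g W1 x - f (g W1 x)) = 0 := by
            rw [sub_eq_add_neg, hf2 _ (F1.mem x) _ (W.neg_mem hh), add_neg_cancel]
          have p1 := hf4 _ hx1 hx2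
          have p2 : Relation.ReflTransGen (fun a b => stp P a b ∧ f (g W1 a) = f (g W1 x) ∧
              f (g W1 b) = f (g W1 x)) (0 + f (g W1 x)) (g W1 x - f (g W1 x) + f (g W1 x)) := by
            refine rtg_map (fun z => z + f (g W1 x)) ?_ p1
            intro a b hab
            refine ⟨stp_add hab.1 _, ?_, ?_⟩
            · rw [F1.id _ (W1.add_mem hab.2.1.1 (h01 hh)), hf2 _ hab.2.1.1 _ hh, hab.2.1.2,
                zero_add]
            · rw [F1.id _ (W1.add_mem hab.2.2.1 (h01 hh)), hf2 _ hab.2.2.1 _ hh, hab.2.2.2,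
                zero_add]
          rw [zero_add, sub_add_cancel] at p2
          refine p2.trans (rtg_mono ?_ (F1.conn x))
          intro a b hab
          exact ⟨hab.1, by rw [hab.2.1], by rw [hab.2.2]⟩
      · simp only [if_neg h]
        exact hg1 W (Finset.mem_erase.2 ⟨h, hW⟩)
    · intro W hW W' hW' hle x
      by_cases h : W = W0
      · subst h
        by_cases h' : W' = W
        · subst h'
          simp only [if_true]
          have : f (g W1 x) ∈ W' := hf1 _ (F1.mem x)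
          rw [F1.id _ (h01 this), hf3 _ this]
        · simp only [if_true, if_neg h']
          rw [hg2 W1 hW1 W' (Finset.mem_erase.2 ⟨h', hW'⟩)
            (hmin1 W' (Finset.mem_erase.2 ⟨h', hW'⟩)) x]
      · have h' : W' ≠ W0 := by
          rintro rfl
          exact h (le_antisymm hle (hmin W hW))
        simp only [if_neg h, if_neg h']
        exact hg2 W (Finset.mem_erase.2 ⟨h, hW⟩) W' (Finset.mem_erase.2 ⟨h', hW'⟩) hle x

end Pool.Agent.Helper4.Sel
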