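import Mathlib

/-!
# Selection of cut edges: graph lemmas
-/

namespace Pool.Agent.Helper4.Sel

open SimpleGraph

variable {V : Type*}

/-- number of neighbours -/
noncomputable def dg (R : SimpleGraph V) (x : V) : ℕ := (R.neighborSet x).ncard

theorem dg_pos [Finite V] {R : SimpleGraph V} {x y : V} (h : R.Adj x y) : 0 < dg R x :=
  (Set.ncard_pos (Set.toFinite _)).2 ⟨y, h⟩

theorem dg_eq_zero [Finite V] {R : SimpleGraph V} {x : V} : dg R x = 0 ↔ ∀ y, ¬ R.Adj x y := by
  constructor
  · intro h y hxy
    have := dg_pos hxy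
    omega
  · intro h
    unfold dg
    rw [Set.ncard_eq_zero (Set.toFinite _)]
    exact Set.eq_empty_of_forall_notMem h

/-- adding edges which have an end of degree one does not create cycles -/
theorem acyclic_of_pendant [Finite V] {R R' : SimpleGraph V} (hR : R.IsAcyclic)
    (h : ∀ x y, R'.Adj x y → ¬ R.Adj x y → dg R' x ≤ 1 ∨ dg R' y ≤ 1) :
    R'.IsAcyclic := by
  intro v c hc
  have key : ∀ x ∈ c.support, 2 ≤ dg R' x := by
    intro x hx
    have h1 := hc.ncard_neighborSet_toSubgraph_eq_two hx
    rw [← h1]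
    exact Set.ncard_le_ncard (fun z hz => c.toSubgraph.adj_sub hz) (Set.toFinite _)
  have hsub : ∀ e ∈ c.edges, e ∈ R.edgeSet := by
    intro e he
    induction e with
    | h x y =>
      rw [SimpleGraph.mem_edgeSet]
      by_contra hn
      have hxy : R'.Adj x y := c.adj_of_mem_edges he
      have hx := key x (c.fst_mem_support_of_mem_edges he)
      have hy := key y (c.snd_mem_support_of_mem_edges he)
      rcases h x y hxy hn with h1 | h1 <;> omega
  exact hR _ (hc.transfer hsub)

theorem del_adj {Z : SimpleGraph V} {u v x y : V} :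
    (Z \ edge u v).Adj x y ↔ Z.Adj x y ∧ ¬ ((x = u ∧ y = v) ∨ (x = v ∧ y = u)) := by
  rw [SimpleGraph.sdiff_adj, SimpleGraph.edge_adj]
  constructor
  · exact fun h => ⟨h.1, fun h' => h.2 ⟨h', h.1.ne⟩⟩
  · exact fun h => ⟨h.1, fun h' => h.2 h'.1⟩

theorem degree_eq_dg (G : SimpleGraph V) (x : V) [Fintype (G.neighborSet x)] :
    G.degree x = dg G x := by
  unfold dg
  rw [← SimpleGraph.card_neighborSet_eq_degree, Set.ncard_eq_toFinset_card', Set.toFinset_card]

/-- a connected graph with all degrees two on `W` stays connected if an edge is removed -/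
theorem reach_del [Finite V] {Z : SimpleGraph V} {W : Set V}
    (hd : ∀ x ∈ W, dg Z x = 2) (hW : ∀ x y, Z.Adj x y → x ∈ W)
    {u v : V} (huv : Z.Adj u v) : (Z \ edge u v).Reachable u v := by
  classical
  have := Fintype.ofFinite V
  by_contra hn
  have hne : u ≠ v := huv.ne
  -- the component of `u`
  let H : SimpleGraph V :=
    { Adj := fun x y => (Z \ edge u v).Adj x y ∧ (Z \ edge u v).Reachable u x
      symm := ⟨fun x y h => ⟨h.1.symm, h.2.trans h.1.reachable⟩⟩
      loopless := ⟨fun x h => (Z \ edge u v).loopless.irrefl x h.1⟩ }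
  have hnb : ∀ x, (Z \ edge u v).Reachable u x → H.neighborSet x = (Z \ edge u v).neighborSet x := by
    intro x hx
    ext y
    simp only [SimpleGraph.mem_neighborSet, H]
    exact ⟨fun h => h.1, fun h => ⟨h, hx⟩⟩
  have hu : (Z \ edge u v).neighborSet u = Z.neighborSet u \ {v} := by
    ext y
    rw [SimpleGraph.mem_neighborSet, del_adj, Set.mem_sdiff, SimpleGraph.mem_neighborSet,
      Set.mem_singleton_iff]
    constructor
    · rintro ⟨h1, h2⟩
      exact ⟨h1, fun h => h2 (Or.inl ⟨rfl, h⟩)⟩
    · rintro ⟨h1, h2⟩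
      refine ⟨h1, fun h => ?_⟩
      rcases h with ⟨_, h3⟩ | ⟨h3, _⟩
      · exact h2 h3
      · exact hne h3
  have hdu : H.degree u = 1 := by
    rw [degree_eq_dg]
    unfold dg
    rw [hnb u (Reachable.refl _), hu,
      Set.ncard_sdiff_singleton_of_mem (show v ∈ Z.neighborSet u from huv)]
    have := hd u (hW _ _ huv)
    unfold dg at this
    omega
  obtain ⟨w, hw, hodd⟩ := exists_ne_odd_degree_of_exists_odd_degree (G := H) u (by
    rw [hdu]; exact odd_one)
  rw [degree_eq_dg] at hodd
  by_cases hr : (Z \ edge u v).Reachable u w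
  · have hwv : w ≠ v := fun h => hn (h ▸ hr)
    unfold dg at hodd
    rw [hnb w hr] at hodd
    have e : (Z \ edge u v).neighborSet w = Z.neighborSet w := by
      ext y
      rw [SimpleGraph.mem_neighborSet, del_adj, SimpleGraph.mem_neighborSet]
      constructor
      · exact fun h => h.1
      · intro h
        refine ⟨h, fun h' => ?_⟩
        rcases h' with ⟨h3, _⟩ | ⟨h3, _⟩
        · exact hw h3
        · exact hwv h3
    rw [e] at hodd
    -- w has a neighbour, so it is in `W`
    have hwW : w ∈ W := by
      by_contra hcon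
      have : Z.neighborSet w = ∅ := Set.eq_empty_of_forall_notMem fun y hy => hcon (hW w y hy)
      rw [this, Set.ncard_empty] at hodd
      exact absurd hodd (by decide)
    have := hd w hwW
    unfold dg at this
    rw [this] at hodd
    exact absurd hodd (by decide)
  · have : H.neighborSet w = ∅ := Set.eq_empty_of_forall_notMem fun y hy => hr hy.2
    unfold dg at hodd
    rw [this, Set.ncard_empty] at hodd
    exact absurd hodd (by decide)

open Classical in
/-- a graph in which the edge `u v` is removed: the degrees -/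
theorem dg_del [Finite V] {Z : SimpleGraph V} {u v x : V} (huv : Z.Adj u v) :
    dg (Z \ edge u v) x + (if x = u ∨ x = v then 1 else 0) = dg Z x := by
  have hne : u ≠ v := huv.ne
  by_cases hx : x = u ∨ x = v
  · rw [if_pos hx]
    obtain ⟨y, hy, hxy, hed⟩ : ∃ y, Z.Adj x y ∧ (Z \ edge u v).neighborSet x = Z.neighborSet x \ {y}
        ∧ True := by
      rcases hx with rfl | rfl
      · refine ⟨v, huv, ?_, trivial⟩
        ext y
        rw [SimpleGraph.mem_neighborSet, del_adj, Set.mem_sdiff, SimpleGraph.mem_neighborSet,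
          Set.mem_singleton_iff]
        constructor
        · rintro ⟨h1, h2⟩
          exact ⟨h1, fun h => h2 (Or.inl ⟨rfl, h⟩)⟩
        · rintro ⟨h1, h2⟩
          refine ⟨h1, fun h => ?_⟩
          rcases h with ⟨_, h3⟩ | ⟨h3, _⟩
          · exact h2 h3
          · exact hne h3
      · refine ⟨u, huv.symm, ?_, trivial⟩
        ext y
        rw [SimpleGraph.mem_neighborSet, del_adj, Set.mem_sdiff, SimpleGraph.mem_neighborSet,
          Set.mem_singleton_iff]
        constructor
        · rintro ⟨h1, h2⟩
          exact ⟨h1, fun h => h2 (Or.inr ⟨rfl, h⟩)⟩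
        · rintro ⟨h1, h2⟩
          refine ⟨h1, fun h => ?_⟩
          rcases h with ⟨h3, _⟩ | ⟨_, h3⟩
          · exact hne h3.symm
          · exact h2 h3
    unfold dg
    rw [hxy, Set.ncard_sdiff_singleton_of_mem (show y ∈ Z.neighborSet x from hy)]
    have := dg_pos hy
    unfold dg at this
    omega
  · rw [if_neg hx, add_zero]
    unfold dg
    congr 1
    ext y
    rw [SimpleGraph.mem_neighborSet, del_adj, SimpleGraph.mem_neighborSet]
    constructor
    · exact fun h => h.1
    · intro h
      refine ⟨h, fun h' => hx ?_⟩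
      rcases h' with ⟨h3, _⟩ | ⟨h3, _⟩
      · exact Or.inl h3
      · exact Or.inr h3

/-- a graph which is connected with degrees two on `W`: without the edge `u v` it is acyclic -/
theorem acyclic_del [Finite V] {Z : SimpleGraph V} {W : Set V}
    (hd : ∀ x ∈ W, dg Z x = 2) (hW : ∀ x y, Z.Adj x y → x ∈ W)
    (hc : ∀ x ∈ W, ∀ y ∈ W, Z.Reachable x y)
    {u v : V} (huv : Z.Adj u v) : (Z \ edge u v).IsAcyclic := by
  classical
  intro w c hcyc
  have hsub : ∀ e ∈ c.edges, e ∈ Z.edgeSet := by
    intro e he
    induction e with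
    | h x y => exact (c.adj_of_mem_edges he).1
  -- all `Z`-neighbours of a vertex of the cycle are on the cycle
  have key : ∀ x ∈ c.support, ∀ y, Z.Adj x y → (Z \ edge u v).Adj x y ∧ y ∈ c.support := by
    intro x hx y hxy
    have h1 := hcyc.ncard_neighborSet_toSubgraph_eq_two hx
    have h2 : c.toSubgraph.neighborSet x ⊆ Z.neighborSet x := fun z hz =>
      (c.toSubgraph.adj_sub hz).1
    have h3 : c.toSubgraph.neighborSet x = Z.neighborSet x := by
      refine Set.eq_of_subset_of_ncard_le h2 ?_ (Set.toFinite _)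
      rw [h1]
      exact (hd x (hW _ _ hxy)).le
    have h4 : y ∈ c.toSubgraph.neighborSet x := by rw [h3]; exact hxy
    refine ⟨c.toSubgraph.adj_sub h4, ?_⟩
    rw [← SimpleGraph.Walk.mem_verts_toSubgraph]
    exact c.toSubgraph.edge_vert h4.symm
  have hwW : w ∈ W := by
    obtain ⟨y, hy⟩ : ∃ y, Z.Adj w y := by
      cases c with
      | nil => exact absurd hcyc (by simp)
      | cons h _ => exact ⟨_, h.1⟩
    exact hW _ _ hy
  have hcl : ∀ x, Z.Reachable w x → x ∈ c.support := by
    intro x hx
    obtain ⟨p⟩ := hx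
    have : ∀ (a b : V) (p : Z.Walk a b), a ∈ c.support → b ∈ c.support := by
      intro a b p
      induction p with
      | nil => exact id
      | cons h _ ih => exact fun ha => ih (key _ ha _ h).2
    exact this _ _ p c.start_mem_support
  have hu := hcl u (hc w hwW u (hW _ _ huv))
  have := (key u hu v huv).1
  rw [del_adj] at this
  exact this.2 (Or.inl ⟨rfl, rfl⟩)

end Pool.Agent.Helper4.Sel
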