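import Pool.Agent.Helper4.Sel.Fold
import Pool.Agent.Helper4.Sel.Graph

/-!
# Selection of cut edges: lifts along folding maps
-/

namespace Pool.Agent.Helper4.Sel

open SimpleGraph

variable {T : Type*} [AddCommGroup T]

/-- the lift of a graph on `W` along the folding map `g` -/
def lift (W : AddSubgroup T) (g : T → T) (Z : SimpleGraph T) : SimpleGraph T where
  Adj x y := y - x ∈ W ∧ Z.Adj (g x) (g y)
  symm := ⟨fun x y h => ⟨by rw [← neg_sub]; exact W.neg_mem h.1, h.2.symm⟩⟩
  loopless := ⟨fun x h => Z.loopless.irrefl _ h.2⟩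

theorem lift_adj {W : AddSubgroup T} {g : T → T} {Z : SimpleGraph T} {x y : T} :
    (lift W g Z).Adj x y ↔ y - x ∈ W ∧ Z.Adj (g x) (g y) := Iff.rfl

theorem dg_lift [Finite T] {P : Set T} {W : AddSubgroup T} {g : T → T} (hg : IsFold P W g)
    {Z : SimpleGraph T} (x : T) (hZ : ∀ z, Z.Adj (g x) z → z ∈ W) :
    dg (lift W g Z) x = dg Z (g x) := by
  unfold dg
  refine Set.ncard_congr (fun y _ => g y) (fun y hy => hy.2) ?_ ?_
  · intro a b ha hb hab
    have h1 := hg.sub ha.1
    have h2 := hg.sub hb.1
    have h3 : a - x = b - x := by rw [← h1, ← h2, hab]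
    exact sub_left_inj.1 h3
  · intro z hz
    have hz' : z ∈ W := hZ z hz
    have hd : z - g x ∈ W := W.sub_mem hz' (hg.mem x)
    have e : g (x + (z - g x)) = z := by
      rw [hg.add x _ hd]
      abel
    refine ⟨x + (z - g x), ?_, e⟩
    rw [SimpleGraph.mem_neighborSet, lift_adj, e]
    refine ⟨?_, hz⟩
    rw [add_sub_cancel_left]
    exact hd

/-- `R` is the lift of its restriction to `W` -/
def Her (W : AddSubgroup T) (g : T → T) (R : SimpleGraph T) : Prop :=
  ∀ x y, R.Adj x y ↔ y - x ∈ W ∧ R.Adj (g x) (g y)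

theorem Her.eq {W : AddSubgroup T} {g : T → T} {R : SimpleGraph T} (h : Her W g R) :
    lift W g R = R := by
  ext x y
  rw [lift_adj, ← h]

theorem Her.dg [Finite T] {P : Set T} {W : AddSubgroup T} {g : T → T} (hg : IsFold P W g)
    {R : SimpleGraph T} (h : Her W g R) (x : T) : dg R (g x) = dg R x := by
  rw [← dg_lift hg x, h.eq]
  intro z hz
  have := ((h _ _).1 hz).1
  have h2 := W.add_mem this (hg.mem x)
  rwa [sub_add_cancel] at h2

theorem her_lift {P : Set T} {W W' : AddSubgroup T} {g g' : T → T} (hg' : IsFold P W' g')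
    (hle : W ≤ W') (hcomp : ∀ x, g (g' x) = g x) (Z : SimpleGraph T) :
    Her W' g' (lift W g Z) := by
  intro x y
  rw [lift_adj, lift_adj, hcomp, hcomp]
  constructor
  · rintro ⟨h1, h2⟩
    exact ⟨hle h1, by rw [hg'.sub (hle h1)]; exact h1, h2⟩
  · rintro ⟨h1, h2, h3⟩
    rw [hg'.sub h1] at h2
    exact ⟨h2, h3⟩

theorem her_bot {P : Set T} {W : AddSubgroup T} {g : T → T} (_ : IsFold P W g) :
    Her W g (⊥ : SimpleGraph T) := by
  intro x y
  simp

theorem Her.sup {W : AddSubgroup T} {g : T → T} {R R' : SimpleGraph T} (h : Her W g R)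
    (h' : Her W g R') : Her W g (R ⊔ R') := by
  intro x y
  rw [SimpleGraph.sup_adj, SimpleGraph.sup_adj, h x y, h' x y]
  tauto

/-- the fibres of a folding map -/
theorem fibre_card [Finite T] {P : Set T} {W : AddSubgroup T} {g : T → T} (hg : IsFold P W g)
    {u : T} (hu : u ∈ W) : {x | g x = u}.ncard * Nat.card W = Nat.card T := by
  have e : ({x | g x = u} × W) ≃ T :=
    { toFun := fun p => p.1.1 - u + p.2.1
      invFun := fun x => (⟨x - g x + u, by
        show g (x - g x + u) = u
        rw [sub_add, sub_eq_add_neg, hg.add x _ (W.neg_mem (W.sub_mem (hg.mem x) hu))]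
        abel⟩, ⟨g x, hg.mem x⟩)
      left_inv := by
        rintro ⟨⟨y, hy⟩, ⟨w, hw⟩⟩
        have hy' : g y = u := hy
        have e1 : g (y - u + w) = w := by
          have : y - u + w = y + (w - u) := by abel
          rw [this, hg.add y _ (W.sub_mem hw hu), hy']
          abel
        simp only [e1]
        refine Prod.ext (Subtype.ext ?_) (Subtype.ext rfl)
        show y - u + w - w + u = y
        abel
      right_inv := by
        intro x
        show x - g x + u - u + g x = x
        abel }
  rw [← Nat.card_coe_set_eq, ← Nat.card_prod]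
  exact Nat.card_congr e

/-- the degrees of a lifted edge -/
theorem dg_lift_edge [Finite T] {P : Set T} {W : AddSubgroup T} {g : T → T} (hg : IsFold P W g)
    {u v : T} (hu : u ∈ W) (hv : v ∈ W) (huv : u ≠ v) (x : T) [Decidable (g x = u ∨ g x = v)] :
    dg (lift W g (edge u v)) x = if g x = u ∨ g x = v then 1 else 0 := by
  rw [dg_lift hg]
  · unfold dg
    have key : ∀ z, z ∈ (edge u v).neighborSet (g x) ↔ ((g x = u ∧ z = v) ∨ (g x = v ∧ z = u)) := by
      intro z
      rw [SimpleGraph.mem_neighborSet, SimpleGraph.edge_adj]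
      constructor
      · exact fun h => h.1
      · intro h
        refine ⟨h, ?_⟩
        rcases h with ⟨h1, h2⟩ | ⟨h1, h2⟩
        · rw [h1, h2]; exact huv
        · rw [h1, h2]; exact huv.symm
    split_ifs with h
    · rcases h with h | h
      · have : (edge u v).neighborSet (g x) = {v} := by
          ext z
          rw [key, Set.mem_singleton_iff]
          constructor
          · rintro (⟨_, h2⟩ | ⟨h1, _⟩)
            · exact h2
            · exact absurd (h.symm.trans h1) huv
          · exact fun hz => Or.inl ⟨h, hz⟩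
        rw [this, Set.ncard_singleton]
      · have : (edge u v).neighborSet (g x) = {u} := by
          ext z
          rw [key, Set.mem_singleton_iff]
          constructor
          · rintro (⟨h1, _⟩ | ⟨_, h2⟩)
            · exact absurd (h1.symm.trans h) huv
            · exact h2
          · exact fun hz => Or.inr ⟨h, hz⟩
        rw [this, Set.ncard_singleton]
    · have : (edge u v).neighborSet (g x) = ∅ := by
        refine Set.eq_empty_of_forall_notMem fun z hz => h ?_
        rcases (key z).1 hz with ⟨h1, _⟩ | ⟨h1, _⟩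
        · exact Or.inl h1
        · exact Or.inr h1
      rw [this, Set.ncard_empty]
  · intro z hz
    rw [SimpleGraph.edge_adj] at hz
    rcases hz.1 with ⟨_, rfl⟩ | ⟨_, rfl⟩
    · exact hv
    · exact hu

/-- degrees of a disjoint union -/
theorem dg_sup [Finite T] {R E : SimpleGraph T} (x : T) (h : ∀ y, ¬ (R.Adj x y ∧ E.Adj x y)) :
    dg (R ⊔ E) x = dg R x + dg E x := by
  unfold dg
  rw [← Set.ncard_union_eq ?_ (Set.toFinite _) (Set.toFinite _)]
  · congr 1
  · rw [Set.disjoint_left]
    exact fun y h1 h2 => h y ⟨h1, h2⟩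

end Pool.Agent.Helper4.Sel
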