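import Pool.Agent.Helper4.Sel.Blocks
import Pool.Agent.Helper82.CI.Group

/-!
# The rows from the partition theorem
-/

namespace Pool.Agent.Helper4.Sel

open SimpleGraph Finset Pool.Agent.Helper39.HD Pool.Agent.Helper82.Part

variable {T : Type*} [AddCommGroup T]

/-- the rows: the data are those of `exists_blocks` -/
theorem connForests_rows [Finite T] [DecidableEq T] {S : Finset T} (hS : ∀ s ∈ S, -s ∉ S)
    (hgen : AddSubgroup.closure (S : Set T) = ⊤) {m : ℕ} {K : AddSubgroup T}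
    {C O : Fin m → Finset T} {L : Finset T}
    (h1 : ∀ x, x ∈ S ↔ x ∈ L ∨ ∃ j, x ∈ C j ∪ O j)
    (h3 : ∀ x i j, x ∈ C i ∪ O i → x ∈ C j ∪ O j → i = j)
    (h4 : ∀ x ∈ L, x ∈ K) (h5 : ∀ j, ∀ x ∈ C j, x ∈ K) (h6 : ∀ j, ∀ x ∈ O j, x ∉ K)
    (h7 : ∀ j, AddSubgroup.closure (C j : Set T) = K)
    (h8 : ∀ i j, i ≤ j → AddSubgroup.closure ((C i ∪ O i : Finset T) : Set T) ≤
        AddSubgroup.closure ((C j ∪ O j : Finset T) : Set T))
    (h9 : ∀ j, (C j ∪ O j).card * Nat.card K ≤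
        (C j).card * Nat.card (AddSubgroup.closure ((C j ∪ O j : Finset T) : Set T)))
    (h10 : 2 * (L.card + ∑ j, (C j).card) + {x : T | x ∈ K ∧ x + x = 0}.ncard ≤ Nat.card K)
    (h11 : S.Nonempty → 0 < m)
    (hham : ∀ j, HamDec (AddSubgroup.closure ((C j ∪ O j : Finset T) : Set T))
      (Subtype.val ⁻¹' ((C j ∪ O j : Finset T) : Set T))) :
    ConnForests (SimpleGraph.circulantGraph {x : T | ∃ j, x ∈ C j ∪ O j})
      ({x : T | ∃ j, x ∈ C j ∪ O j}.ncard + 1) := by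
  have hPS : ∀ x, (∃ j, x ∈ C j ∪ O j) → x ∈ S := fun x hx => (h1 x).2 (Or.inr hx)
  have hinter : ∀ j, ((C j ∪ O j : Finset T) : Set T) ∩ K = (C j : Set T) := by
    intro j
    ext x
    simp only [Set.mem_inter_iff, coe_union, Set.mem_union, SetLike.mem_coe]
    constructor
    · rintro ⟨h | h, h'⟩
      · exact h
      · exact absurd h' (h6 j x h)
    · exact fun h => ⟨Or.inl h, h5 j x h⟩
  refine connForests_of_blocks (K := K) (B := fun j => ((C j ∪ O j : Finset T) : Set T)) ?_ ?_ ?_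
    ?_ ?_ h8 ?_ ?_ hham
  · rintro s ⟨j, hj⟩ ⟨i, hi⟩
    exact hS s (hPS s ⟨j, hj⟩) (hPS _ ⟨i, hi⟩)
  · rw [eq_top_iff, ← hgen, AddSubgroup.closure_le]
    intro x hx
    rcases (h1 x).1 hx with h | ⟨j, hj⟩
    · have hm : 0 < m := h11 ⟨x, hx⟩
      have h12 : x ∈ AddSubgroup.closure (C ⟨0, hm⟩ : Set T) := by
        rw [h7]
        exact h4 x h
      refine AddSubgroup.closure_mono ?_ h12
      exact fun y hy => ⟨⟨0, hm⟩, mem_union_left _ hy⟩
    · exact AddSubgroup.subset_closure ⟨j, hj⟩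
  · intro x
    exact Iff.rfl
  · intro x i j hi hj
    exact h3 x i j (by simpa using hi) (by simpa using hj)
  · intro j
    rw [← h7 j]
    exact AddSubgroup.closure_mono (by simp)
  · intro j
    rw [hinter, Set.ncard_coe_finset, Set.ncard_coe_finset]
    exact h9 j
  · have e : {x : T | ∃ j, x ∈ C j ∪ O j} ∩ K = ((univ.biUnion C : Finset T) : Set T) := by
      ext x
      simp only [Set.mem_inter_iff, Set.mem_ofPred_eq, SetLike.mem_coe, coe_biUnion, coe_univ,
        Set.mem_univ, Set.iUnion_true, Set.mem_iUnion]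
      constructor
      · rintro ⟨⟨j, hj⟩, hx⟩
        rcases mem_union.1 hj with h | h
        · exact ⟨j, h⟩
        · exact absurd hx (h6 j x h)
      · rintro ⟨j, hj⟩
        exact ⟨⟨j, mem_union_left _ hj⟩, h5 j x hj⟩
    rw [e, Set.ncard_coe_finset]
    have h12 : (univ.biUnion C).card ≤ ∑ j, (C j).card := card_biUnion_le
    have h13 : 1 ≤ {x : T | x ∈ K ∧ x + x = 0}.ncard := by
      exact (Set.ncard_pos (Set.toFinite _)).2 ⟨0, K.zero_mem, by simp⟩
    omega

end Pool.Agent.Helper4.Sel
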