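import Pool.Agent.Helper4.Sel.Rows
import Pool.Agent.Helper39.HD2.Final2

/-!
# Everything from (B)
-/

namespace Pool.Agent.Helper4.Sel

open Finset Pool.Agent.Helper39.HD Pool.Agent.Helper82.Part

theorem CI.comap {T : Type*} [AddCommGroup T] [DecidableEq T] {W : AddSubgroup T} [DecidableEq W]
    {B : Finset T} (h : CI (fun x : T => AddSubgroup.zmultiples x) ⊥ B) :
    ∀ B' : Finset W, B'.image Subtype.val = B →
      CI (fun x : W => AddSubgroup.zmultiples x) ⊥ B' := by
  induction h with
  | empty =>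
    intro B' hB'
    rw [image_eq_empty] at hB'
    rw [hB']
    exact CI.empty
  | @insert x B hB hx ih =>
    intro B' hB'
    have hxB : x ∉ B := fun h => hx (le_sup_of_le_right (le_sup (f := fun x : T =>
      AddSubgroup.zmultiples x) h))
    obtain ⟨x', hx', hxx⟩ := mem_image.1 (hB' ▸ mem_insert_self x B : x ∈ B'.image Subtype.val)
    have he : (B'.erase x').image Subtype.val = B := by
      rw [Finset.image_erase Subtype.val_injective, hB', hxx, erase_insert hxB]
    rw [← insert_erase hx']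
    refine CI.insert (ih _ he) ?_
    intro hle
    apply hx
    rw [bot_sup_eq, AddSubgroup.zmultiples_le, sup_zmultiples] at hle ⊢
    rw [← he, coe_image, ← hxx]
    have h1 : (AddSubgroup.closure (B'.erase x' : Set W)).map W.subtype =
        AddSubgroup.closure ((Subtype.val : W → T) '' (B'.erase x' : Set W)) := by
      rw [AddMonoidHom.map_closure]
      rfl
    rw [← h1]
    exact ⟨x', hle, rfl⟩

theorem hamDec_of_B (hB : BLemma) {T : Type} [AddCommGroup T] [Finite T] [DecidableEq T]
    {B : Finset T} (hci : CI (fun x : T => AddSubgroup.zmultiples x) ⊥ B)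
    (hneg : ∀ s ∈ B, -s ∉ B) (hne : B.Nonempty) :
    HamDec (AddSubgroup.closure (B : Set T)) (Subtype.val ⁻¹' (B : Set T)) := by
  classical
  set W := AddSubgroup.closure (B : Set T) with hW
  have hBW : ∀ x ∈ B, x ∈ W := fun x hx => AddSubgroup.subset_closure hx
  let B' : Finset W := (Set.toFinite (Subtype.val ⁻¹' (B : Set T) : Set W)).toFinset
  have hmem : ∀ x : W, x ∈ B' ↔ x.1 ∈ B := fun x => by simp [B']
  have himg : B'.image Subtype.val = B := by
    ext x
    rw [mem_image]
    constructor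
    · rintro ⟨y, hy, rfl⟩
      exact (hmem y).1 hy
    · exact fun hx => ⟨⟨x, hBW x hx⟩, (hmem _).2 hx, rfl⟩
  have hcoe : (Subtype.val ⁻¹' (B : Set T) : Set W) = (B' : Set W) := by
    ext x
    rw [mem_coe, hmem]
    rfl
  rw [hcoe]
  refine hB W B' (CI.comap hci B' himg) ?_ ?_ ?_
  · intro s hs hs'
    have h1 : s.1 ∈ B := himg ▸ mem_image_of_mem _ hs
    have h2 : (-s).1 ∈ B := himg ▸ mem_image_of_mem _ hs'
    exact hneg _ h1 h2
  · apply AddSubgroup.map_injective (f := W.subtype) Subtype.val_injective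
    rw [AddMonoidHom.map_closure, ← AddMonoidHom.range_eq_map]
    change AddSubgroup.closure ((Subtype.val : W → T) '' (B' : Set W)) = _
    rw [← coe_image, himg]
    exact (AddSubgroup.range_subtype W).symm
  · obtain ⟨x, hx⟩ := hne
    exact ⟨⟨x, hBW x hx⟩, (hmem _).2 hx⟩

/-- the finite statement from (B) -/
theorem rows_of_B (hB : BLemma) (T : Type) [AddCommGroup T] [Finite T] [DecidableEq T] (S : Set T)
    (hS : ∀ s ∈ S, -s ∉ S) (hgen : AddSubgroup.closure S = ⊤) : Rows T S := by
  classical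
  set S' : Finset T := (Set.toFinite S).toFinset with hS'
  have hmem : ∀ x, x ∈ S' ↔ x ∈ S := fun x => by simp [hS']
  have hcoe : (S' : Set T) = S := by ext x; simp [hS']
  obtain ⟨m, K, C, O, L, h1, h2, h3, h4, h5, h6, h7, h8, h9, h10, h11, h12, h13, h14, h15, h16⟩ :=
    exists_blocks S' (fun s hs hs' => hS s ((hmem s).1 hs) ((hmem _).1 hs'))
  have hnegS : ∀ s ∈ S', -s ∉ S' := fun s hs hs' => hS s ((hmem s).1 hs) ((hmem _).1 hs')
  have hham : ∀ j, HamDec (AddSubgroup.closure ((C j ∪ O j : Finset T) : Set T))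
      (Subtype.val ⁻¹' ((C j ∪ O j : Finset T) : Set T)) := by
    intro j
    refine hamDec_of_B hB (h10 j) ?_ ?_
    · intro s hs hs'
      exact hnegS s ((h1 s).2 (Or.inr ⟨j, hs⟩)) ((h1 _).2 (Or.inr ⟨j, hs'⟩))
    · have hK : K ≠ ⊥ := h16 j.pos
      by_contra hcon
      rw [not_nonempty_iff_eq_empty, union_eq_empty] at hcon
      apply hK
      rw [← h11 j, hcon.1]
      simp
  have hrows := connForests_rows hnegS (by rw [hcoe]; exact hgen) h1 h3 h4 h5 h6 h11 h12 h13 h14
    h15 hham
  refine ⟨{x : T | ∃ j, x ∈ C j ∪ O j}, L, ?_, ?_, ?_, h7, hrows.decomposable, fun _ => hrows⟩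
  · ext x
    rw [← hmem, h1, Set.mem_union]
    constructor
    · rintro (h | h)
      · exact Or.inr h
      · exact Or.inl h
    · rintro (h | h)
      · exact Or.inr h
      · exact Or.inl h
  · rw [Set.disjoint_left]
    rintro x ⟨j, hj⟩ hx
    exact h2 x hx j hj
  · rw [eq_top_iff, ← hgen, AddSubgroup.closure_le]
    intro x hx
    rcases (h1 x).1 ((hmem x).2 hx) with h | ⟨j, hj⟩
    · have hm : 0 < m := h15 ⟨x, (hmem x).2 hx⟩
      have h17 : x ∈ AddSubgroup.closure (C ⟨0, hm⟩ : Set T) := by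
        rw [h11]
        exact h4 x h
      refine AddSubgroup.closure_mono ?_ h17
      exact fun y hy => ⟨⟨0, hm⟩, mem_union_left _ hy⟩
    · exact AddSubgroup.subset_closure ⟨j, hj⟩

/-- the whole question from (B) -/
theorem hamilton_of_B (hB : BLemma) {Γ : Type} [AddCommGroup Γ] [Countable Γ] (S : Set Γ)
    (hfin : S.Finite) (hS : ∀ s ∈ S, -s ∉ S) (hgen : AddSubgroup.closure S = ⊤)
    (hrank : ∃ x y : Γ, ∀ i j : ℤ, i • x = j • y → i = 0 ∧ j = 0) :
    HasHamiltonDecomposition (SimpleGraph.circulantGraph S) :=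
  hamilton_of_rows S hfin hS hgen hrank fun T _ _ _ S hS hgen => rows_of_B hB T S hS hgen

end Pool.Agent.Helper4.Sel
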