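import Pool.Agent.Helper4.Sel.Count

/-!
# Selection of cut edges: the induction
-/

namespace Pool.Agent.Helper4.Sel

open SimpleGraph Finset

variable {T : Type*} [AddCommGroup T] [Fintype T]

theorem fibre_index {P : Set T} {W : AddSubgroup T} {g : T → T} (hg : IsFold P W g)
    {u : T} (hu : u ∈ W) : {x | g x = u}.ncard = W.index := by
  have h1 := fibre_card hg hu
  have h2 := W.index_mul_card
  have h3 : 0 < Nat.card W := Nat.card_pos
  exact Nat.eq_of_mul_eq_mul_right h3 (h1.trans h2.symm)

/-- the state after the selection of the edges of the classes in `Q` -/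
structure St {ι : Type*} (P : Set T) (K : AddSubgroup T) (W : ι → AddSubgroup T)
    (g : AddSubgroup T → T → T) (Z : ι → SimpleGraph T) (μ : ℕ) (Q : Finset ι) (u v : ι → T)
    (R : SimpleGraph T) : Prop where
  adj : ∀ c ∈ Q, (Z c).Adj (u c) (v c)
  eq : ∀ x y, R.Adj x y ↔ ∃ c ∈ Q, (lift (W c) (g (W c)) (edge (u c) (v c))).Adj x y
  deg : ∀ x, dg R x ≤ 2
  acyc : R.IsAcyclic
  sum : ∑ x, dg R x = 2 * ∑ c ∈ Q, (W c).index
  rep : ∀ x, g K x = 0 → dg R x ≤ 1
  inv : (∀ x, dg R x ≤ 1) ∨
    (Nat.card T + 4 * {x | dg R x = 2}.ncard ≤ 4 * ∑ c ∈ Q, (W c).index ∧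
      ∀ x, c2 K R x + Nat.card K ≤ 4 * μ + 1)

open Classical in
theorem St.step {ι : Type*} {P : Set T} {K : AddSubgroup T} {W : ι → AddSubgroup T}
    {g : AddSubgroup T → T → T} {Z : ι → SimpleGraph T} {μ : ℕ} {Q : Finset ι} {u v : ι → T}
    {R : SimpleGraph T} (h : St P K W g Z μ Q u v R)
    (hK : IsFold P K (g K)) (a : ι) (ha : a ∉ Q) (hW : IsFold P (W a) (g (W a)))
    (hKW : K ≤ W a) (hcompK : ∀ x, g K (g (W a) x) = g K x)
    (hle : ∀ c ∈ Q, W c ≤ W a) (hcomp : ∀ c ∈ Q, ∀ x, g (W c) (g (W a) x) = g (W c) x)
    (hZ : ∀ x ∈ W a, dg (Z a) x = 2) (hZ' : ∀ x y, (Z a).Adj x y → x ∈ W a)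
    (hcost : ∑ c ∈ Q, (W c).index + (W a).index ≤ μ * K.index) (hk : 2 * μ + 1 ≤ Nat.card K) :
    ∃ u' v' R', St P K W g Z μ (insert a Q) u' v' R' := by
  have hher : Her (W a) (g (W a)) R := by
    intro x y
    rw [h.eq, h.eq]
    constructor
    · rintro ⟨c, hc, hxy⟩
      have h1 := (her_lift hW (hle c hc) (hcomp c hc) _ x y).1 hxy
      exact ⟨h1.1, c, hc, h1.2⟩
    · rintro ⟨h1, c, hc, hxy⟩
      exact ⟨c, hc, (her_lift hW (hle c hc) (hcomp c hc) _ x y).2 ⟨h1, hxy⟩⟩
  have hdR : ∀ x, dg R (g (W a) x) = dg R x := fun x => hher.dg hW x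
  have hG : ∀ x, dg (lift (W a) (g (W a)) (Z a)) x = 2 := by
    intro x
    rw [dg_lift hW x fun z hz => hZ' _ _ hz.symm]
    exact hZ _ (hW.mem x)
  have hidx : 0 < (W a).index := Nat.pos_of_ne_zero (AddSubgroup.index_ne_zero_of_finite)
  have hA2 : (univ.filter fun x => dg R x = 2).card = {x | dg R x = 2}.ncard := by
    rw [← Set.ncard_coe_finset]
    congr 1
    ext x
    simp
  obtain ⟨U, V, hUV, hU0, hV⟩ := exists_edge hK (lift (W a) (g (W a)) (Z a)) R μ
    (∑ c ∈ Q, (W c).index) hG h.deg h.sum (by rw [hA2]; exact h.inv)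
    h.rep (by rw [fibre_index hK K.zero_mem]; omega) hk
  rw [hA2] at hV
  set ga := g (W a) with hga
  set u0 := ga U with hu0
  set v0 := ga V with hv0
  have huv : (Z a).Adj u0 v0 := hUV.2
  have hu0W : u0 ∈ W a := hW.mem U
  have hv0W : v0 ∈ W a := hW.mem V
  have hdu : dg R u0 = 0 := by rw [hu0, hdR]; exact hU0
  have hc2g : ∀ x, c2 K R (ga x) = c2 K R x := by
    intro x
    unfold c2
    rw [← Set.ncard_coe_finset, ← Set.ncard_coe_finset]
    refine (Set.ncard_congr (fun y _ => ga y) ?_ ?_ ?_).symm
    · intro y hy
      simp only [coe_filter, mem_univ, true_and, Set.mem_ofPred_eq] at hy ⊢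
      rw [hW.sub (hKW hy.1), hdR]
      exact hy
    · intro y y' hy hy' hyy
      simp only [coe_filter, mem_univ, true_and, Set.mem_ofPred_eq] at hy hy'
      have h1 := hW.sub (hKW hy.1)
      have h2 := hW.sub (hKW hy'.1)
      have h3 : y - x = y' - x := by rw [← h1, ← h2, hyy]
      exact sub_left_inj.1 h3
    · intro z hz
      simp only [coe_filter, mem_univ, true_and, Set.mem_ofPred_eq] at hz
      have e : ga (x + (z - ga x)) = z := by
        rw [hW.add x _ (hKW hz.1)]
        abel
      refine ⟨x + (z - ga x), ?_, e⟩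
      simp only [coe_filter, mem_univ, true_and, Set.mem_ofPred_eq]
      refine ⟨by rw [add_sub_cancel_left]; exact hz.1, ?_⟩
      rw [← hdR, e]
      exact hz.2
  set E := lift (W a) ga (edge u0 v0) with hE
  have hdE : ∀ x, dg E x = if ga x = u0 ∨ ga x = v0 then 1 else 0 := fun x =>
    dg_lift_edge hW hu0W hv0W huv.ne x
  have hEadj : ∀ x y, E.Adj x y → (ga x = u0 ∧ ga y = v0) ∨ (ga x = v0 ∧ ga y = u0) := by
    intro x y hxy
    have := hxy.2
    rw [SimpleGraph.edge_adj] at this
    exact this.1
  have hdisj : ∀ x y, ¬ (R.Adj x y ∧ E.Adj x y) := by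
    rintro x y ⟨h1, h2⟩
    rcases hEadj x y h2 with ⟨h3, _⟩ | ⟨_, h3⟩
    · have := dg_pos h1
      rw [← hdR, h3, hdu] at this
      exact lt_irrefl _ this
    · have := dg_pos h1.symm
      rw [← hdR, h3, hdu] at this
      exact lt_irrefl _ this
  have hd' : ∀ x, dg (R ⊔ E) x = dg R x + if ga x = u0 ∨ ga x = v0 then 1 else 0 := by
    intro x
    rw [dg_sup x (fun y => hdisj x y), hdE]
  have hV1 : dg R v0 ≤ 1 := by
    rw [hv0, hdR]
    rcases hV with h1 | h1
    · omega
    · exact h1.1.le
  have hdeg2 : ∀ x, dg (R ⊔ E) x ≤ 2 := by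
    intro x
    rw [hd']
    split_ifs with h1
    · rcases h1 with h1 | h1
      · rw [← hdR, h1, hdu]
        omega
      · rw [← hdR, h1]
        omega
    · exact (h.deg x).trans le_rfl
  -- old vertices of degree two
  have hnew : ∀ x, dg (R ⊔ E) x = 2 ↔ dg R x = 2 ∨ (ga x = v0 ∧ dg R v0 = 1) := by
    intro x
    rw [hd']
    have h2 := h.deg x
    constructor
    · intro h1
      by_cases hx : ga x = u0 ∨ ga x = v0
      · rw [if_pos hx] at h1
        rcases hx with hx | hx
        · rw [← hdR, hx, hdu] at h1
          omega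
        · rw [← hdR, hx] at h1
          exact Or.inr ⟨hx, by omega⟩
      · rw [if_neg hx] at h1
        exact Or.inl (by omega)
    · rintro (h1 | ⟨hx, h1⟩)
      · have hx : ¬ (ga x = u0 ∨ ga x = v0) := by
          rintro (hx | hx)
          · have : dg R x = 0 := by rw [← hdR, hx, hdu]
            omega
          · have : dg R x ≤ 1 := by rw [← hdR, hx]; exact hV1
            omega
        rw [if_neg hx]
        omega
      · rw [if_pos (Or.inr hx), ← hdR, hx]
        omega
  refine ⟨Function.update u a u0, Function.update v a v0, R ⊔ E, ?_, ?_, hdeg2, ?_, ?_, ?_, ?_⟩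
  · intro c hc
    by_cases hca : c = a
    · subst hca
      simpa using huv
    · simp only [Function.update_of_ne hca]
      exact h.adj c ((mem_insert.1 hc).resolve_left hca)
  · intro x y
    rw [SimpleGraph.sup_adj]
    constructor
    · rintro (h1 | h1)
      · obtain ⟨c, hc, h2⟩ := (h.eq x y).1 h1
        have hca : c ≠ a := fun h => ha (h ▸ hc)
        refine ⟨c, mem_insert_of_mem hc, ?_⟩
        rw [Function.update_of_ne hca, Function.update_of_ne hca]
        exact h2
      · refine ⟨a, mem_insert_self _ _, ?_⟩
        rw [Function.update_self, Function.update_self]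
        exact h1
    · rintro ⟨c, hc, h1⟩
      by_cases hca : c = a
      · subst hca
        rw [Function.update_self, Function.update_self] at h1
        exact Or.inr h1
      · rw [Function.update_of_ne hca, Function.update_of_ne hca] at h1
        exact Or.inl ((h.eq x y).2 ⟨c, (mem_insert.1 hc).resolve_left hca, h1⟩)
  · -- acyclicity
    refine acyclic_of_pendant h.acyc fun x y hxy hn => ?_
    rcases hxy with hxy | hxy
    · exact absurd hxy hn
    have one : ∀ z, ga z = u0 → dg (R ⊔ E) z ≤ 1 := by
      intro z hz
      rw [hd', if_pos (Or.inl hz), ← hdR, hz, hdu]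
    rcases hEadj x y hxy with ⟨h3, _⟩ | ⟨_, h3⟩
    · exact Or.inl (one x h3)
    · exact Or.inr (one y h3)
  · -- the sum of the degrees
    rw [sum_insert ha, Finset.sum_congr rfl fun x _ => hd' x, Finset.sum_add_distrib, h.sum,
      Finset.sum_boole]
    have h1 : (univ.filter fun x => ga x = u0 ∨ ga x = v0).card = 2 * (W a).index := by
      rw [Finset.filter_or, card_union_of_disjoint]
      · have e1 : (univ.filter fun x => ga x = u0).card = (W a).index := by
          rw [← fibre_index hW hu0W, ← Set.ncard_coe_finset]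
          congr 1
          ext x
          simp [hga]
        have e2 : (univ.filter fun x => ga x = v0).card = (W a).index := by
          rw [← fibre_index hW hv0W, ← Set.ncard_coe_finset]
          congr 1
          ext x
          simp [hga]
        omega
      · rw [Finset.disjoint_left]
        intro x hx hx'
        simp only [mem_filter, mem_univ, true_and] at hx hx'
        exact huv.ne (hx.symm.trans hx')
    rw [h1]
    simp only [Nat.cast_id]
    ring
  · -- representatives
    intro x hx
    by_contra hcon
    have h2 : dg (R ⊔ E) x = 2 := by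
      have := hdeg2 x
      omega
    rcases (hnew x).1 h2 with h3 | ⟨h3, h4⟩
    · have := h.rep x hx
      omega
    · rcases hV with h5 | h5
      · rw [hv0, hdR] at h4
        omega
      · apply h5.2.1
        rw [← hcompK, ← hv0, ← h3, hcompK]
        exact hx
  · -- the bounds
    rcases hV with h5 | h5
    · -- no new vertex of degree two
      have h6 : dg R v0 = 0 := by rw [hv0, hdR]; exact h5
      have h7 : ∀ x, dg (R ⊔ E) x = 2 ↔ dg R x = 2 := by
        intro x
        rw [hnew]
        constructor
        · rintro (h8 | ⟨_, h8⟩)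
          · exact h8
          · omega
        · exact Or.inl
      rcases h.inv with h8 | ⟨h8, h9⟩
      · refine Or.inl fun x => ?_
        by_contra hcon
        have h2 : dg (R ⊔ E) x = 2 := by
          have := hdeg2 x
          omega
        have := h8 x
        rw [h7] at h2
        omega
      · refine Or.inr ⟨?_, fun x => ?_⟩
        · simp only [h7]
          rw [sum_insert ha]
          omega
        · have : c2 K (R ⊔ E) x = c2 K R x := by
            unfold c2
            simp only [h7]
          rw [this]
          exact h9 x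
    · obtain ⟨h6, h7, h8, h9⟩ := h5
      have hv1 : dg R v0 = 1 := by rw [hv0, hdR]; exact h6
      refine Or.inr ⟨?_, fun x => ?_⟩
      · have e1 : {x | dg (R ⊔ E) x = 2} = {x | dg R x = 2} ∪ {x | ga x = v0} := by
          ext x
          simp only [Set.mem_ofPred_eq, Set.mem_union]
          rw [hnew]
          constructor
          · rintro (h10 | ⟨h10, _⟩)
            · exact Or.inl h10
            · exact Or.inr h10
          · rintro (h10 | h10)
            · exact Or.inl h10
            · exact Or.inr ⟨h10, hv1⟩
        have e2 : {x | dg (R ⊔ E) x = 2}.ncard ≤ {x | dg R x = 2}.ncard + (W a).index := by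
          rw [e1, ← fibre_index hW hv0W]
          exact Set.ncard_union_le _ _
        rw [sum_insert ha]
        omega
      · by_cases hex : ∃ y, y - x ∈ K ∧ ga y = v0
        · obtain ⟨y, hy, hyv⟩ := hex
          have e1 : c2 K R x = c2 K R V := by
            rw [← c2_congr R hy, ← hc2g y, hyv, hv0, hc2g]
          have e2 : c2 K (R ⊔ E) x ≤ c2 K R x + 1 := by
            have hsub : (univ.filter fun z => z - x ∈ K ∧ dg (R ⊔ E) z = 2) ⊆
                insert y (univ.filter fun z => z - x ∈ K ∧ dg R z = 2) := by
              intro z hz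
              simp only [mem_filter, mem_univ, true_and, mem_insert] at hz ⊢
              rcases (hnew z).1 hz.2 with h10 | ⟨h10, _⟩
              · exact Or.inr ⟨hz.1, h10⟩
              · left
                have hzy : z - y ∈ K := (mem_coset hy).2 hz.1
                have := hW.sub (hKW hzy)
                rw [h10, hyv, sub_self] at this
                exact (sub_eq_zero.1 this.symm)
            exact (card_le_card hsub).trans (card_insert_le _ _)
          rw [e1] at e2
          omega
        · push Not at hex
          have e1 : c2 K (R ⊔ E) x = c2 K R x := by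
            unfold c2
            congr 1
            ext z
            simp only [mem_filter, mem_univ, true_and]
            constructor
            · rintro ⟨h10, h11⟩
              rcases (hnew z).1 h11 with h12 | ⟨h12, _⟩
              · exact ⟨h10, h12⟩
              · exact absurd h12 (hex z h10)
            · rintro ⟨h10, h11⟩
              exact ⟨h10, (hnew z).2 (Or.inl h11)⟩
          rw [e1]
          rcases h.inv with h10 | ⟨_, h10⟩
          · have : c2 K R x = 0 := by
              unfold c2
              rw [card_eq_zero]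
              refine eq_empty_of_forall_notMem fun y hy => ?_
              simp only [mem_filter, mem_univ, true_and] at hy
              have := h10 y
              omega
            omega
          · exact h10 x

/-- **selection** -/
theorem select {ι : Type*} [Fintype ι] {P : Set T} {K : AddSubgroup T} {W : ι → AddSubgroup T}
    {g : AddSubgroup T → T → T} {Z : ι → SimpleGraph T} {μ : ℕ}
    (hK : IsFold P K (g K)) (hW : ∀ c, IsFold P (W c) (g (W c)))
    (hKW : ∀ c, K ≤ W c) (hcompK : ∀ c x, g K (g (W c) x) = g K x)
    (hch : ∀ c c', W c ≤ W c' ∨ W c' ≤ W c)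
    (hcomp : ∀ c c', W c ≤ W c' → ∀ x, g (W c) (g (W c') x) = g (W c) x)
    (hZ : ∀ c, ∀ x ∈ W c, dg (Z c) x = 2) (hZ' : ∀ c x y, (Z c).Adj x y → x ∈ W c)
    (hcost : ∑ c, (W c).index ≤ μ * K.index) (hk : 2 * μ + 1 ≤ Nat.card K) :
    ∃ u v R, St P K W g Z μ univ u v R := by
  classical
  have key : ∀ Q : Finset ι, ∃ u v R, St P K W g Z μ Q u v R := by
    intro Q
    refine Finset.induction_on_max_value (fun c => Nat.card (W c)) Q ?_ ?_
    · refine ⟨fun _ => 0, fun _ => 0, ⊥, ?_⟩
      have hd0 : ∀ x : T, dg (⊥ : SimpleGraph T) x = 0 := by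
        intro x
        rw [dg_eq_zero]
        simp
      refine ⟨by simp, by simp, fun x => by rw [hd0]; omega, isAcyclic_bot, by simp [hd0],
        fun x _ => by rw [hd0]; omega, Or.inl fun x => by rw [hd0]; omega⟩
    · rintro a Q ha hmax ⟨u, v, R, hst⟩
      have hle : ∀ c ∈ Q, W c ≤ W a := by
        intro c hc
        rcases hch c a with h | h
        · exact h
        · have h1 : (W a : Set T) = W c := by
            refine Set.eq_of_subset_of_ncard_le h ?_ (Set.toFinite _)
            exact hmax c hc
          exact (SetLike.coe_injective h1).ge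
      refine hst.step hK a ha (hW a) (hKW a) (hcompK a) hle
        (fun c hc => hcomp c a (hle c hc)) (hZ a) (hZ' a) ?_ hk
      refine le_trans ?_ hcost
      rw [add_comm, ← Finset.sum_insert (f := fun c => (W c).index) ha]
      exact Finset.sum_le_sum_of_subset (subset_univ _)
  exact key univ

end Pool.Agent.Helper4.Sel
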